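import Pool.Agent.Lib.MP_10e784_agX.D4

/-!
# LEAF QC: the union over the `l` which do not divide `p - 1`

PROOF.  As `union` (D4.lean of MP_10e784_agX), first case.  `𝓛` = the primes in `(U, 4 U]` which do not divide `p - 1`.  The primes `> U` which divide `p - 1 > 0` are at most `log p / log U` (their product divides `p - 1`), which is `≤ U / (2 log U)` by `2 log p ≤ U`; so `card 𝓛 ≥ U / (2 log U)` (`primes4`).  For `l ∈ 𝓛`: `Nat.card (Sq p l 1) ≥ p / (12 U)`.  Double counting as in `union`: `∑_l card (Sq p l 1) ≤ (2 log p / log U) card (SU p U 1)`.  So `card (SU p U 1) ≥ (U / (2 log U)) (p / (12 U)) (log U / (2 log p)) = p / (48 log p)`; `c = 1 / 48`.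
-/

set_option autoImplicit false

namespace WPL

open BIE

/-- the points of the plane curve -/
private noncomputable def QC_S (p : ℕ) [Fact p.Prime] (q : ZMod p) : Finset (ZMod p × ZMod p) :=
  Finset.univ.filter fun z => z.2 ^ 2 + z.1 * z.2 = z.1 ^ 3 - q

private noncomputable def QC_f (p : ℕ) [Fact p.Prime] (q : ZMod p) : PQ q → Option (QC_S p q)
  | .zero => none
  | .some x y h => some ⟨(x, y), by
      have h1 := h.1
      rw [WeierstrassCurve.Affine.equation_iff] at h1
      rw [QC_S, Finset.mem_filter]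
      refine ⟨Finset.mem_univ _, ?_⟩
      have h2 : (EQ (ZMod p) q).toAffine.a₁ = 1 := rfl
      have h3 : (EQ (ZMod p) q).toAffine.a₂ = 0 := rfl
      have h4 : (EQ (ZMod p) q).toAffine.a₃ = 0 := rfl
      have h5 : (EQ (ZMod p) q).toAffine.a₄ = 0 := rfl
      have h6 : (EQ (ZMod p) q).toAffine.a₆ = -q := rfl
      rw [h2, h3, h4, h5, h6] at h1
      show y ^ 2 + x * y = x ^ 3 - q
      linear_combination h1⟩

private theorem QC_inj (p : ℕ) [Fact p.Prime] (q : ZMod p) : Function.Injective (QC_f p q) := by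
  intro P Q h
  cases P with
  | zero =>
    cases Q with
    | zero => rfl
    | some x y h' => simp [QC_f] at h
  | some x y h' =>
    cases Q with
    | zero => simp [QC_f] at h
    | some x' y' h'' =>
      simp only [QC_f, Option.some.injEq, Subtype.mk.injEq, Prod.mk.injEq] at h
      obtain ⟨h1, h2⟩ := h
      subst h1
      subst h2
      rfl

private theorem QC_fin (p : ℕ) [Fact p.Prime] (q : ZMod p) : Finite (PQ q) :=
  Finite.of_injective _ (QC_inj p q)

/-- the number of the primes -/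
private theorem QC_primes {p U k : ℕ} [Fact p.Prime] (hU : 2 ≤ U) (hp : 5 ≤ p) (hk : 1 ≤ k)
    (q : ZMod p) (s : Finset ℕ) (hs : ∀ l ∈ s, l.Prime ∧ U < l ∧ l ^ k ∣ Nat.card (PQ q)) :
    (s.card : ℝ) * Real.log U ≤ 2 * Real.log p := by
  have hfin := QC_fin p q
  have hpos : 0 < Nat.card (PQ q) := Nat.card_pos
  have h1 : ∏ l ∈ s, l ∣ Nat.card (PQ q) :=
    Finset.prod_primes_dvd _ (fun l hl => (hs l hl).1.prime)
      (fun l hl => (dvd_pow_self l (by omega)).trans (hs l hl).2.2)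
  have h2 : U ^ s.card ≤ ∏ l ∈ s, l := Finset.pow_card_le_prod _ _ _ fun l hl => (hs l hl).2.1.le
  have h3 : U ^ s.card ≤ p ^ 2 := by
    have h4 := Nat.le_of_dvd hpos h1
    have h5 := card_PQ_le p q
    nlinarith
  have h4 : Real.log ((U : ℝ) ^ s.card) ≤ Real.log ((p : ℝ) ^ 2) := by
    refine Real.log_le_log ?_ (by exact_mod_cast h3)
    have : (0 : ℝ) < U := by exact_mod_cast (by omega : 0 < U)
    positivity
  rw [Real.log_pow, Real.log_pow] at h4
  exact_mod_cast h4

/-- double counting -/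
private theorem QC_count {p U k : ℕ} [Fact p.Prime] (hU : 2 ≤ U) (hp : 5 ≤ p) (hk : 1 ≤ k)
    (s : Finset ℕ) (hs : ∀ l ∈ s, l.Prime ∧ U < l ∧ l ≤ 4 * U) {B : ℝ}
    (hB : ∀ l ∈ s, B ≤ Nat.card (Sq p l k)) :
    (s.card : ℝ) * B * Real.log U ≤ Nat.card (SU p U k) * (2 * Real.log p) := by
  classical
  obtain ⟨Q, hQ⟩ : ∃ Q : Finset (ZMod p), Q = Finset.univ.filter fun q => q ∈ SU p U k := ⟨_, rfl⟩
  have hQc : Nat.card (SU p U k) = Q.card := by
    rw [Nat.card_eq_fintype_card, hQ, Fintype.card_subtype]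
  have hlc : ∀ l ∈ s, Nat.card (Sq p l k) = (Q.filter fun q => q ∈ Sq p l k).card := by
    intro l hl
    rw [Nat.card_eq_fintype_card, Fintype.card_subtype, hQ, Finset.filter_filter]
    congr 1
    ext q
    simp only [Finset.mem_filter, Finset.mem_univ, true_and]
    constructor
    · intro h
      exact ⟨⟨h.1, h.2.1, l, (hs l hl).1, (hs l hl).2.1, (hs l hl).2.2, h.2.2⟩, h⟩
    · exact fun h => h.2
  have hdc : ∑ l ∈ s, (Q.filter fun q => q ∈ Sq p l k).card =
      ∑ q ∈ Q, (s.filter fun l => q ∈ Sq p l k).card :=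
    Finset.sum_card_bipartiteAbove_eq_sum_card_bipartiteBelow fun l q => q ∈ Sq p l k
  have hlog : 0 ≤ Real.log U := Real.log_nonneg (by exact_mod_cast (by omega : 1 ≤ U))
  calc (s.card : ℝ) * B * Real.log U = (∑ l ∈ s, B) * Real.log U := by
        rw [Finset.sum_const, nsmul_eq_mul]
    _ ≤ (∑ l ∈ s, (Nat.card (Sq p l k) : ℝ)) * Real.log U :=
        mul_le_mul_of_nonneg_right (Finset.sum_le_sum hB) hlog
    _ = (∑ q ∈ Q, ((s.filter fun l => q ∈ Sq p l k).card : ℝ)) * Real.log U := by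
        congr 1
        have h1 : ∑ l ∈ s, (Nat.card (Sq p l k) : ℝ) =
            ((∑ l ∈ s, (Q.filter fun q => q ∈ Sq p l k).card : ℕ) : ℝ) := by
          push_cast
          exact Finset.sum_congr rfl fun l hl => by rw [hlc l hl]
        rw [h1, hdc]
        push_cast
        rfl
    _ = ∑ q ∈ Q, ((s.filter fun l => q ∈ Sq p l k).card : ℝ) * Real.log U := by
        rw [Finset.sum_mul]
    _ ≤ ∑ q ∈ Q, 2 * Real.log p := by
        refine Finset.sum_le_sum fun q _ => QC_primes hU hp hk q _ fun l hl => ?_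
        rw [Finset.mem_filter] at hl
        exact ⟨(hs l hl.1).1, (hs l hl.1).2.1, hl.2.2.2⟩
    _ = _ := by rw [Finset.sum_const, nsmul_eq_mul, hQc]

theorem union_one : ∃ c : ℝ, 0 < c ∧ ∃ U1 : ℕ, ∀ (p U : ℕ) [Fact p.Prime], U1 ≤ U → 5 ≤ p →
    2 * Real.log p ≤ U →
    (∀ l : ℕ, l.Prime → U < l → l ≤ 4 * U → ¬ l ∣ p - 1 → (p : ℝ) / 3 ≤ (l : ℝ) * Nat.card (Sq p l 1)) →
    c * p / Real.log p ≤ Nat.card (SU p U 1) := by
  classical
  obtain ⟨U0, hU0⟩ := primes4
  refine ⟨1 / 48, by norm_num, max U0 3, fun p U _ hU hp hpU h => ?_⟩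
  have hU' : U0 ≤ U := (le_max_left _ _).trans hU
  have hU3 : 3 ≤ U := (le_max_right _ _).trans hU
  have hUr : (3 : ℝ) ≤ U := by exact_mod_cast hU3
  have hpr : (5 : ℝ) ≤ p := by exact_mod_cast hp
  have hlogU : 0 < Real.log U := Real.log_pos (by linarith)
  have hlogp : 0 < Real.log p := Real.log_pos (by linarith)
  obtain ⟨s, hsdef⟩ : ∃ s : Finset ℕ, s = (Finset.Ioc U (4 * U)).filter Nat.Prime := ⟨_, rfl⟩
  have hs : ∀ l ∈ s, l.Prime ∧ U < l ∧ l ≤ 4 * U := by
    intro l hl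
    rw [hsdef, Finset.mem_filter, Finset.mem_Ioc] at hl
    exact ⟨hl.2, hl.1.1, hl.1.2⟩
  have hn : (U : ℝ) / Real.log U ≤ s.card := by
    rw [hsdef]
    exact hU0 U hU'
  have hUlog : (U : ℝ) ≤ s.card * Real.log U := by
    rw [div_le_iff₀ hlogU] at hn
    exact hn
  obtain ⟨sB, hB⟩ : ∃ sB : Finset ℕ, sB = s.filter fun l => l ∣ p - 1 := ⟨_, rfl⟩
  obtain ⟨sA, hA⟩ : ∃ sA : Finset ℕ, sA = s.filter fun l => ¬ l ∣ p - 1 := ⟨_, rfl⟩
  have hcard : (sB.card : ℝ) + sA.card = s.card := by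
    rw [hA, hB]
    exact_mod_cast Finset.card_filter_add_card_filter_not (s := s) (fun l => l ∣ p - 1)
  have hBlog : (sB.card : ℝ) * Real.log U ≤ Real.log p := by
    have h1 : ∏ l ∈ sB, l ∣ p - 1 :=
      Finset.prod_primes_dvd _
        (fun l hl => (hs l (by rw [hB, Finset.mem_filter] at hl; exact hl.1)).1.prime)
        (fun l hl => by rw [hB, Finset.mem_filter] at hl; exact hl.2)
    have h2 : U ^ sB.card ≤ ∏ l ∈ sB, l := Finset.pow_card_le_prod _ _ _
      fun l hl => (hs l (by rw [hB, Finset.mem_filter] at hl; exact hl.1)).2.1.le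
    have h3 : U ^ sB.card ≤ p := by
      have h4 := Nat.le_of_dvd (by omega) h1
      omega
    have h4 : Real.log ((U : ℝ) ^ sB.card) ≤ Real.log (p : ℝ) := by
      refine Real.log_le_log (by positivity) (by exact_mod_cast h3)
    rw [Real.log_pow] at h4
    exact h4
  have hAlog : (U : ℝ) / 2 ≤ sA.card * Real.log U := by
    have h1 : (sB.card : ℝ) * Real.log U + sA.card * Real.log U = s.card * Real.log U := by
      rw [← hcard]
      ring
    linarith
  have h2 := QC_count (k := 1) (B := (p : ℝ) / (12 * U)) (by omega) hp le_rfl sA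
    (fun l hl => hs l (by rw [hA, Finset.mem_filter] at hl; exact hl.1))
    (fun l hl => by
      rw [hA, Finset.mem_filter] at hl
      obtain ⟨h1, h2, h3⟩ := hs l hl.1
      have h4 := h l h1 h2 h3 hl.2
      have hl4 : (l : ℝ) ≤ 4 * U := by exact_mod_cast h3
      have ha : (0 : ℝ) ≤ Nat.card (Sq p l 1) := Nat.cast_nonneg _
      have h7 : (l : ℝ) * Nat.card (Sq p l 1) ≤ 4 * U * Nat.card (Sq p l 1) :=
        mul_le_mul_of_nonneg_right hl4 ha
      rw [div_le_iff₀ (by positivity)]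
      linarith)
  rw [div_le_iff₀ hlogp]
  have h3 : (U : ℝ) / 2 * (p / (12 * U)) ≤ sA.card * (p / (12 * U)) * Real.log U := by
    have h5 : (0 : ℝ) ≤ p / (12 * U) := by positivity
    calc (U : ℝ) / 2 * (p / (12 * U)) ≤ (sA.card * Real.log U) * (p / (12 * U)) :=
          mul_le_mul_of_nonneg_right hAlog h5
      _ = _ := by ring
  have h4 : (U : ℝ) / 2 * (p / (12 * U)) = p / 24 := by
    field_simp
    norm_num
  rw [h4] at h3
  linarith

end WPL
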