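import Pool.Agent.Lib.MP_10e784_agWP.QB
import Pool.Agent.Lib.MP_10e784_agWP.QC
import Pool.Agent.Lib.MP_10e784_agX.FW

/-!
# Block P with `k = 1` only
-/

set_option autoImplicit false

namespace WPL

open BIE MWS

theorem factQ : ∃ c : ℝ, 0 < c ∧ ∃ K : ℕ, ∀ U : ℕ, K ≤ U → ∀ p : ℕ, p.Prime → U ^ K ≤ p →
    (K : ℝ) * Real.log p ≤ U → c * (p : ℝ) ^ 2 / Real.log p ≤ (Nat.card {z // Gk p U 1 z} : ℝ) := by
  obtain ⟨K0, hK0⟩ := many factW
  obtain ⟨c, hc, U1, hU1⟩ := union_one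
  refine ⟨c / 5, by positivity, max (2 * K0 + 5) (max U1 17), fun U hU p hp hUp hUl => ?_⟩
  have hfact : Fact p.Prime := ⟨hp⟩
  have hU17 : 17 ≤ U := le_trans (le_trans (le_max_right _ _) (le_max_right _ _)) hU
  have hUU1 : U1 ≤ U := le_trans (le_trans (le_max_left _ _) (le_max_right _ _)) hU
  have hK : 2 * K0 + 5 ≤ max (2 * K0 + 5) (max U1 17) := le_max_left _ _
  have hUp' : U ^ (2 * K0 + 5) ≤ p := (Nat.pow_le_pow_right (by omega) hK).trans hUp
  have hp5 : 5 ≤ p := by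
    have h1 : U ^ 1 ≤ U ^ (2 * K0 + 5) := Nat.pow_le_pow_right (by omega) (by omega)
    rw [pow_one] at h1
    omega
  have hp5' : (5 : ℝ) ≤ p := by exact_mod_cast hp5
  have hlog : 0 < Real.log p := Real.log_pos (by linarith)
  have h2l : 2 * Real.log p ≤ U := by
    have h1 : (2 : ℝ) ≤ ((max (2 * K0 + 5) (max U1 17) : ℕ) : ℝ) := by
      have : 2 ≤ max (2 * K0 + 5) (max U1 17) := by omega
      exact_mod_cast this
    nlinarith
  have hl : ∀ l : ℕ, l.Prime → U < l → l ≤ 4 * U → ¬ l ∣ p - 1 →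
      (p : ℝ) / 3 ≤ (l : ℝ) * Nat.card (Sq p l 1) := by
    intro l hlp h1 h2 h3
    have hodd : Odd l := hlp.odd_of_ne_two (by omega)
    have h4 : l ^ K0 ≤ p := by
      calc l ^ K0 ≤ (U ^ 2) ^ K0 := Nat.pow_le_pow_left (by nlinarith) _
        _ = U ^ (2 * K0) := by rw [← pow_mul]
        _ ≤ U ^ (2 * K0 + 5) := Nat.pow_le_pow_right (by omega) (by omega)
        _ ≤ p := hUp'
    have h5 := hK0 p l (by omega) hodd h4
    have h6 := per_one p l hp5 hlp (by omega) h3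
    refine h5.trans ?_
    exact_mod_cast h6
  have h := hU1 p U hUU1 hp5 h2l hl
  have hfib : (p : ℝ) / 5 * Nat.card (SU p U 1) ≤ Nat.card {z : ZMod p × ZMod p // Gk p U 1 z} := by
    have h1 := fibre p U 1 hp5
    have h2 : ((p : ℝ) - 1) * Nat.card (SU p U 1) ≤ 4 * Nat.card {z : ZMod p × ZMod p // Gk p U 1 z} := by
      have h3 : (((p - 1 : ℕ) : ℝ)) = (p : ℝ) - 1 := by
        rw [Nat.cast_sub (by omega)]
        norm_num
      rw [← h3]
      exact_mod_cast h1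
    have h4 : (0 : ℝ) ≤ Nat.card (SU p U 1) := Nat.cast_nonneg _
    nlinarith
  calc c / 5 * (p : ℝ) ^ 2 / Real.log p = (p : ℝ) / 5 * (c * p / Real.log p) := by ring
    _ ≤ (p : ℝ) / 5 * Nat.card (SU p U 1) := mul_le_mul_of_nonneg_left h (by positivity)
    _ ≤ _ := hfib

end WPL
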