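import Pool.Agent.Lib.MP_10e784_agWP.WK
import Pool.Agent.Lib.MP_10e784_agX.D3a

/-!
# LEAF QA: the `l`-torsion is cyclic if `l` does not divide `p - 1`

PROOF.  `tc_pow` (D3a.lean of MP_10e784_agX): `Nat.card {P : PQ q // l • P = 0} = l ^ k`, `k ≤ 2`.  Let `k = 2`.  `(CW q).baseChange (ZMod p)` and `EQ (ZMod p) q` are the same curve (`algebraMap (ZMod p) (ZMod p)` is the identity; `rfl` or `WeierstrassCurve.ext` with `map_one`, ..), so `PL q (ZMod p)` and `PQ q` are the same group (`show`, `Eq.mpr`, or an explicit `AddEquiv` by cases).  `V` = the subgroup of the `P` with `l • P = 0`: `full_tors` gives `l ∣ p - 1`.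
-/

set_option autoImplicit false

namespace WPL

open BIE

theorem tc_one (p l : ℕ) [Fact p.Prime] (hp : 5 ≤ p) (hl : l.Prime) (h17 : 17 ≤ l) (hlp : ¬ l ∣ p - 1) {q : ZMod p}
    (hq : q ≠ 0) (hq' : 432 * q ≠ 1) :
    ∃ k ≤ 1, Nat.card {P : PQ q // l • P = 0} = l ^ k ∧ l ^ k ∣ Nat.card (PQ q) := by
  obtain ⟨k, hk, hc, hd⟩ := tc_pow p l hp hl h17 hq hq'
  refine ⟨k, ?_, hc, hd⟩
  by_contra hk1
  have hk2 : k = 2 := by omega
  rw [hk2] at hc
  have heq : (CW q).baseChange (ZMod p) = EQ (ZMod p) q := rfl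
  have key : ∀ W : WeierstrassCurve (ZMod p), W = EQ (ZMod p) q →
      Nat.card {P : W.toAffine.Point // l • P = 0} = l ^ 2 := by
    rintro _ rfl
    exact hc
  have hcard : Nat.card (nsmulAddMonoidHom (α := PL q (ZMod p)) l).ker = l ^ 2 := by
    rw [← key _ heq]
    refine Nat.card_congr (Equiv.subtypeEquivRight fun P => ?_)
    rw [AddMonoidHom.mem_ker]
    rfl
  have hfin : Finite (nsmulAddMonoidHom (α := PL q (ZMod p)) l).ker := by
    refine Nat.finite_of_card_ne_zero ?_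
    rw [hcard]
    exact pow_ne_zero _ hl.ne_zero
  refine hlp (full_tors p hp hq hq' l hl (by omega) (nsmulAddMonoidHom (α := PL q (ZMod p)) l).ker ?_ ?_)
  · intro T hT
    rw [AddMonoidHom.mem_ker] at hT
    exact hT
  · rw [hcard]

end WPL
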