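import Mathlib

/-!
# Torsion over `ZMod p`: definitions

`CW q` is the curve `y² + x y = x³ - q`; `PL q L` its points over an extension `L` of `K`; `LL q` its function field, an extension of degree `2` of `RatFunc K`, generated by `y`.
-/

set_option autoImplicit false

namespace WPL

open Polynomial

/-- the curve `y² + x y = x³ - q` -/
def CW {K : Type} [Field K] (q : K) : WeierstrassCurve K := ⟨1, 0, 0, 0, -q⟩

/-- its points over an extension -/
abbrev PL {K : Type} [Field K] (q : K) (L : Type) [Field L] [Algebra K L] : Type :=
  ((CW q).baseChange L).toAffine.Point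

/-- the polynomial `Y² + t Y - (t³ - q)` over `K(t)` -/
noncomputable def PY {K : Type} [Field K] (q : K) : (RatFunc K)[X] :=
  X ^ 2 + C RatFunc.X * X - C (RatFunc.X ^ 3 - RatFunc.C q)

end WPL
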