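import Pool.Agent.Lib.MP_10e784_agWP.Defs

/-!
# LEAF WA: the function field

PROOF.  `PY_irr`: degree `2` and monic: it is enough that there is no root `r` in `RatFunc K`.  A root is integral over `K[X]`, so it is (the image of) a polynomial `r` (`IsIntegrallyClosed`): `r² + X r = X³ - q`.  If `natDegree r ≥ 2` the left hand side has degree `2 natDegree r ≠ 3`, otherwise it has degree `≤ 2`.
`xL_tr`: `RatFunc.X` is transcendental over `K` and `RatFunc K → LL q` is injective.  `eqL`: `PY` at the root.  `LL_form`: the power basis `1, y` (`AdjoinRoot.powerBasis`, or `AdjoinRoot.mk` of the remainder modulo the monic `PY q`).  `LL_uniq`: irreducibility of degree `2`: `y` is not in the image of `RatFunc K`.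
-/

set_option autoImplicit false

namespace WPL

open Polynomial

variable {K : Type} [Field K]

private theorem wa_natDegree (q : K) : (PY q).natDegree = 2 := by
  unfold PY
  compute_degree!

private theorem wa_monic (q : K) : (PY q).Monic := by
  unfold PY
  monicity!

private theorem wa_poly (q : K) (p : K[X]) : p ^ 2 + X * p ≠ X ^ 3 - C q := by
  intro h
  have hr : (X ^ 3 - C q : K[X]).natDegree = 3 := by compute_degree!
  have hl : (p ^ 2 + X * p).natDegree = 3 := by rw [h, hr]
  rcases Nat.lt_or_ge p.natDegree 2 with h2 | h2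
  · have h3 : (p ^ 2 + X * p).natDegree ≤ 2 := by
      refine (natDegree_add_le _ _).trans (max_le ?_ ?_)
      · refine natDegree_pow_le.trans ?_
        omega
      · refine natDegree_mul_le.trans ?_
        have := (natDegree_X_le : (X : K[X]).natDegree ≤ 1)
        omega
    omega
  · have h3 : (X * p).natDegree < (p ^ 2).natDegree := by
      have hX : (X : K[X]).natDegree ≤ 1 := natDegree_X_le
      have h4 : (X * p).natDegree ≤ (X : K[X]).natDegree + p.natDegree := natDegree_mul_le
      rw [natDegree_pow]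
      omega
    rw [natDegree_add_eq_left_of_natDegree_lt h3, natDegree_pow] at hl
    omega

private theorem wa_noroot (q : K) (r : RatFunc K) :
    r ^ 2 + RatFunc.X * r ≠ RatFunc.X ^ 3 - RatFunc.C q := by
  intro h
  have hint : IsIntegral K[X] r := by
    refine ⟨X ^ 2 + C X * X - C (X ^ 3 - C q), by monicity!, ?_⟩
    have hX : algebraMap K[X] (RatFunc K) X = RatFunc.X := RatFunc.algebraMap_X
    have hC : algebraMap K[X] (RatFunc K) (C q) = RatFunc.C q := RatFunc.algebraMap_C q
    simp only [eval₂_sub, eval₂_add, eval₂_mul, eval₂_pow, eval₂_X, eval₂_C, map_sub, map_pow, hX, hC]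
    rw [h]
    ring
  obtain ⟨p, hp⟩ := IsIntegrallyClosed.isIntegral_iff.mp hint
  refine wa_poly q p ?_
  have hinj := IsFractionRing.injective K[X] (RatFunc K)
  apply hinj
  simp only [map_sub, map_add, map_mul, map_pow]
  rw [hp, RatFunc.algebraMap_X, RatFunc.algebraMap_C, h]

theorem PY_irr (q : K) : Irreducible (PY q) := by
  have hm := wa_monic q
  have hd := wa_natDegree q
  refine (hm.irreducible_iff_roots_eq_zero_of_degree_le_three (by omega) (by omega)).mpr ?_
  rw [Multiset.eq_zero_iff_forall_notMem]
  intro r hr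
  have h1 := (mem_roots'.mp hr).2
  unfold PY at h1
  simp only [IsRoot.def, eval_sub, eval_add, eval_mul, eval_pow, eval_X, eval_C] at h1
  exact wa_noroot q r (sub_eq_zero.mp h1)

instance PY_fact (q : K) : Fact (Irreducible (PY q)) := ⟨PY_irr q⟩

/-- the function field -/
abbrev LL (q : K) : Type := AdjoinRoot (PY q)

/-- the coordinate `x` -/
noncomputable def xL (q : K) : LL q := algebraMap (RatFunc K) (LL q) RatFunc.X

/-- the coordinate `y` -/
noncomputable def yL (q : K) : LL q := AdjoinRoot.root (PY q)

/-- polynomials at `xL` -/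
private theorem wa_aeval (q : K) (P : K[X]) :
    aeval (xL q) P = algebraMap (RatFunc K) (LL q) (algebraMap K[X] (RatFunc K) P) := by
  have h1 : aeval (xL q) P = algebraMap (RatFunc K) (LL q) (aeval (RatFunc.X : RatFunc K) P) := by
    unfold xL
    exact aeval_algebraMap_apply (LL q) (RatFunc.X : RatFunc K) P
  rw [h1]
  congr 1
  induction P using Polynomial.induction_on' with
  | add a b ha hb =>
    have ha' : aeval (xL q) a = algebraMap (RatFunc K) (LL q) (aeval (RatFunc.X : RatFunc K) a) := by
      unfold xL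
      exact aeval_algebraMap_apply (LL q) (RatFunc.X : RatFunc K) a
    have hb' : aeval (xL q) b = algebraMap (RatFunc K) (LL q) (aeval (RatFunc.X : RatFunc K) b) := by
      unfold xL
      exact aeval_algebraMap_apply (LL q) (RatFunc.X : RatFunc K) b
    rw [map_add, map_add, ha ha', hb hb']
  | monomial n a =>
    rw [aeval_monomial, ← C_mul_X_pow_eq_monomial, map_mul, map_pow, RatFunc.algebraMap_X,
      RatFunc.algebraMap_C]
    rfl

theorem xL_tr (q : K) : Transcendental K (xL q) := by
  intro h
  obtain ⟨P, hP0, hP⟩ := h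
  rw [wa_aeval] at hP
  have h1 : algebraMap K[X] (RatFunc K) P = 0 :=
    (algebraMap (RatFunc K) (LL q)).injective (by rw [hP, map_zero])
  exact hP0 (IsFractionRing.injective K[X] (RatFunc K) (by rw [h1, map_zero]))

private theorem wa_eq (q : K) : yL q ^ 2 + xL q * yL q =
    algebraMap (RatFunc K) (LL q) (RatFunc.X ^ 3 - RatFunc.C q) := by
  have h := AdjoinRoot.eval₂_root (PY q)
  rw [show PY q = X ^ 2 + C RatFunc.X * X - C (RatFunc.X ^ 3 - RatFunc.C q) from rfl] at h
  simp only [eval₂_sub, eval₂_add, eval₂_mul, eval₂_pow, eval₂_X, eval₂_C] at h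
  exact sub_eq_zero.mp h

theorem eqL (q : K) : yL q ^ 2 + xL q * yL q = xL q ^ 3 - algebraMap K (LL q) q := by
  rw [wa_eq, map_sub, map_pow]
  rfl

theorem finrank_LL (q : K) : Module.finrank (RatFunc K) (LL q) = 2 := by
  rw [(AdjoinRoot.powerBasis (PY_irr q).ne_zero).finrank, AdjoinRoot.powerBasis_dim, wa_natDegree]

theorem LL_form (q : K) (z : LL q) : ∃ a b : RatFunc K,
    z = algebraMap (RatFunc K) (LL q) a + algebraMap (RatFunc K) (LL q) b * yL q := by
  obtain ⟨g, rfl⟩ := AdjoinRoot.mk_surjective z
  have hm := wa_monic q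
  have hd : (g %ₘ PY q).natDegree < 2 := by
    rw [← wa_natDegree q]
    refine natDegree_modByMonic_lt g hm ?_
    intro h1
    have := wa_natDegree q
    rw [h1, natDegree_one] at this
    omega
  have hg : AdjoinRoot.mk (PY q) g = AdjoinRoot.mk (PY q) (g %ₘ PY q) := by
    rw [AdjoinRoot.mk_eq_mk]
    refine ⟨g /ₘ PY q, ?_⟩
    have := modByMonic_add_div g (PY q)
    linear_combination - this
  refine ⟨(g %ₘ PY q).coeff 0, (g %ₘ PY q).coeff 1, ?_⟩
  rw [hg]
  conv_lhs => rw [eq_X_add_C_of_natDegree_le_one (show (g %ₘ PY q).natDegree ≤ 1 by omega)]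
  rw [map_add, map_mul, AdjoinRoot.mk_C, AdjoinRoot.mk_C, AdjoinRoot.mk_X]
  exact add_comm _ _

theorem LL_uniq (q : K) (a b : RatFunc K)
    (h : algebraMap (RatFunc K) (LL q) a + algebraMap (RatFunc K) (LL q) b * yL q = 0) : a = 0 ∧ b = 0 := by
  have h1 : AdjoinRoot.mk (PY q) (C a + C b * X) = 0 := by
    rw [map_add, map_mul, AdjoinRoot.mk_C, AdjoinRoot.mk_C, AdjoinRoot.mk_X]
    exact h
  rw [AdjoinRoot.mk_eq_zero] at h1
  have h2 : (C a + C b * X : (RatFunc K)[X]) = 0 := by
    by_contra h3
    have h4 := natDegree_le_of_dvd h1 h3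
    rw [wa_natDegree] at h4
    have h5 : (C a + C b * X : (RatFunc K)[X]).natDegree ≤ 1 := by compute_degree
    omega
  constructor
  · have := congrArg (fun p => coeff p 0) h2
    simpa using this
  · have := congrArg (fun p => coeff p 1) h2
    simpa using this

/-- polynomials at `xL` -/
theorem aeval_xL (q : K) (P : K[X]) :
    aeval (xL q) P = algebraMap (RatFunc K) (LL q) (algebraMap K[X] (RatFunc K) P) :=
  wa_aeval q P

end WPL
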