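import Pool.Agent.Lib.MP_10e784_agWP.WA

/-!
# LEAF WB: homomorphisms of the function field

PROOF.  `hom_ext`: an algebra homomorphism on `RatFunc K` is determined by the value at `X` (fractions of polynomials), `LL_form`.
`hom_exists`: `z` transcendental: `aeval z : K[X] → LL q` is injective, so it extends to `RatFunc K` (`RatFunc.liftAlgHom` or `IsFractionRing.liftAlgHom`); then `AdjoinRoot.liftAlgHom` / `AdjoinRoot.lift` with `w`, a root of the mapped `PY q`.
`sigma`: `hom_exists` with `z = xL`, `w = - yL - xL` (`eqL`); it is the identity on `RatFunc K` because both homomorphisms agree at `X`.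
`fixed_sigma`: `z = a + b y` (`LL_form`); `σ z = a - b x - b y`; `σ z = z` gives `b x + 2 b y = 0`, so `2 b = 0` (`LL_uniq`), `b = 0`.
-/

set_option autoImplicit false

namespace WPL

open Polynomial

variable {K : Type} [Field K]

private theorem WB_poly {q : K} {S : Type} [Field S] [Algebra K S] (f g : LL q →ₐ[K] S) (hx : f (xL q) = g (xL q))
    (P : K[X]) : f (algebraMap (RatFunc K) (LL q) (algebraMap K[X] (RatFunc K) P)) =
      g (algebraMap (RatFunc K) (LL q) (algebraMap K[X] (RatFunc K) P)) := by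
  rw [← aeval_xL, ← aeval_algHom_apply, ← aeval_algHom_apply, hx]

private theorem WB_rat {q : K} {S : Type} [Field S] [Algebra K S] (f g : LL q →ₐ[K] S) (hx : f (xL q) = g (xL q))
    (r : RatFunc K) : f (algebraMap (RatFunc K) (LL q) r) = g (algebraMap (RatFunc K) (LL q) r) := by
  rw [← RatFunc.num_div_denom r, map_div₀, map_div₀, map_div₀, WB_poly f g hx, WB_poly f g hx]

theorem hom_ext {q : K} {S : Type} [Field S] [Algebra K S] (f g : LL q →ₐ[K] S) (hx : f (xL q) = g (xL q))
    (hy : f (yL q) = g (yL q)) : f = g := by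
  refine AlgHom.ext fun z => ?_
  obtain ⟨a, b, rfl⟩ := LL_form q z
  rw [map_add, map_add, map_mul, map_mul, WB_rat f g hx, WB_rat f g hx, hy]

private theorem WB_eval {S : Type} [CommRing S] (q : K) (φ : RatFunc K →+* S) (w : S) :
    (PY q).eval₂ φ w = w ^ 2 + φ RatFunc.X * w - (φ RatFunc.X ^ 3 - φ (RatFunc.C q)) := by
  unfold PY
  rw [eval₂_sub, eval₂_add, eval₂_pow, eval₂_mul, eval₂_X, eval₂_C, eval₂_C, map_sub, map_pow]

theorem hom_exists {q : K} (z w : LL q) (hz : Transcendental K z)
    (h : w ^ 2 + z * w = z ^ 3 - algebraMap K (LL q) q) : ∃ f : LL q →ₐ[K] LL q, f (xL q) = z ∧ f (yL q) = w := by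
  have hinj : Function.Injective (aeval z : K[X] →ₐ[K] LL q) := transcendental_iff_injective.1 hz
  let φ : RatFunc K →ₐ[K] LL q := RatFunc.liftAlgHom (aeval z : K[X] →ₐ[K] LL q) (by
    intro P hP
    rw [Submonoid.mem_comap]
    refine mem_nonZeroDivisors_of_ne_zero fun h0 => ?_
    refine nonZeroDivisors.ne_zero hP (hinj ?_)
    rw [map_zero]
    exact h0)
  have hφ : ∀ P : K[X], φ (algebraMap K[X] (RatFunc K) P) = aeval z P := fun P => by
    have h1 := RatFunc.liftAlgHom_apply_div' (L := LL q) (aeval z : K[X] →ₐ[K] LL q) (by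
      intro P hP
      rw [Submonoid.mem_comap]
      refine mem_nonZeroDivisors_of_ne_zero fun h0 => ?_
      refine nonZeroDivisors.ne_zero hP (hinj ?_)
      rw [map_zero]
      exact h0) P 1
    rw [map_one, map_one, map_one, div_one, div_one] at h1
    exact h1
  have hφX : φ RatFunc.X = z := by
    rw [← RatFunc.algebraMap_X, hφ, aeval_X]
  have hφC : ∀ c : K, φ (RatFunc.C c) = algebraMap K (LL q) c := fun c => by
    rw [← RatFunc.algebraMap_C, hφ, aeval_C]
  have hroot : (PY q).eval₂ (φ : RatFunc K →+* LL q) w = 0 := by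
    have h1 : (φ : RatFunc K →+* LL q) RatFunc.X = z := hφX
    have h2 : (φ : RatFunc K →+* LL q) (RatFunc.C q) = algebraMap K (LL q) q := hφC q
    rw [WB_eval, h1, h2]
    linear_combination h
  let f0 : LL q →+* LL q := AdjoinRoot.lift (φ : RatFunc K →+* LL q) w hroot
  have hf0 : ∀ r : RatFunc K, f0 (algebraMap (RatFunc K) (LL q) r) = φ r := fun r => by
    exact AdjoinRoot.lift_of hroot
  let f : LL q →ₐ[K] LL q :=
    { f0 with
      commutes' := fun c => by
        change f0 (algebraMap K (LL q) c) = algebraMap K (LL q) c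
        rw [IsScalarTower.algebraMap_apply K (RatFunc K) (LL q), hf0, AlgHom.commutes]
        rfl }
  refine ⟨f, ?_, ?_⟩
  · change f0 (algebraMap (RatFunc K) (LL q) RatFunc.X) = z
    rw [hf0, hφX]
  · change f0 (AdjoinRoot.root (PY q)) = w
    exact AdjoinRoot.lift_root hroot

theorem sigma (q : K) : ∃ σ : LL q →ₐ[K] LL q, σ (yL q) = -yL q - xL q ∧
    ∀ r : RatFunc K, σ (algebraMap (RatFunc K) (LL q) r) = algebraMap (RatFunc K) (LL q) r := by
  have h := eqL q
  obtain ⟨σ, h1, h2⟩ := hom_exists (xL q) (-yL q - xL q) (xL_tr q) (by linear_combination h)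
  exact ⟨σ, h2, fun r => WB_rat σ (AlgHom.id K (LL q)) h1 r⟩

theorem fixed_sigma (h2 : (2 : K) ≠ 0) {q : K} (σ : LL q →ₐ[K] LL q) (h : σ (yL q) = -yL q - xL q)
    (h' : ∀ r : RatFunc K, σ (algebraMap (RatFunc K) (LL q) r) = algebraMap (RatFunc K) (LL q) r) (z : LL q)
    (hz : σ z = z) : ∃ r : RatFunc K, z = algebraMap (RatFunc K) (LL q) r := by
  obtain ⟨a, b, rfl⟩ := LL_form q z
  rw [map_add, map_mul, h', h', h] at hz
  have h3 : algebraMap (RatFunc K) (LL q) (b * RatFunc.X) + algebraMap (RatFunc K) (LL q) (2 * b) * yL q = 0 := by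
    have h4 : xL q = algebraMap (RatFunc K) (LL q) RatFunc.X := rfl
    rw [map_mul, map_mul, ← h4, map_ofNat]
    linear_combination -hz
  obtain ⟨-, h5⟩ := LL_uniq q _ _ h3
  have h6 : (2 : RatFunc K) ≠ 0 := by
    intro h7
    apply h2
    have h8 : algebraMap K (RatFunc K) 2 = algebraMap K (RatFunc K) 0 := by
      rw [map_ofNat, map_zero, h7]
    exact (algebraMap K (RatFunc K)).injective h8
  have h7 : b = 0 := (mul_eq_zero.1 h5).resolve_left h6
  refine ⟨a, ?_⟩
  rw [h7, map_zero, zero_mul, add_zero]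

end WPL
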