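import Pool.Agent.Lib.MP_10e784_agWP.WB

/-!
# LEAF WC: the generic point and the translations

PROOF.  `exists_g`: `eqL` and `Δ ≠ 0`: nonsingular (`WeierstrassCurve.Affine.equation_iff_nonsingular_of_Δ_ne_zero` or `EQ_nons`-like; `Δ = q (1 - 432 q)` up to sign, compute; characteristic not `2`, `3`).
`IsG g` : `g` is the generic point.
`trans_exists`: `T' = Point.map (Algebra.ofId K (LL q)) T`.  `g + T' = 0` would give `g = -T'`, whose coordinates are in the image of `K`, but `xL` is transcendental.  So `g + T' = some z w`.  If `z` were algebraic over `K`, so would be `w` (a root of `Y² + z Y - ..`); both lie in the field `A = algebraicClosure K (LL q)` (`IntermediateField`), so `g + T' = Point.map A.val S`, `g = Point.map A.val (S - T'_A)`, and `xL` would be algebraic.  So `z` is transcendental and `hom_exists` applies; `Point.map_some`.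
-/

set_option autoImplicit false

namespace WPL

open Polynomial

variable {K : Type} [Field K] [DecidableEq K]

open Classical in
/-- `g` is the generic point -/
def IsG {q : K} (g : PL q (LL q)) : Prop := ∃ h, g = .some (xL q) (yL q) h

omit [DecidableEq K] in
private theorem WC_eq {q : K} {L : Type} [Field L] [Algebra K L] (z w : L) :
    ((CW q).baseChange L).toAffine.Equation z w ↔ w ^ 2 + z * w = z ^ 3 - algebraMap K L q := by
  rw [WeierstrassCurve.Affine.equation_iff]
  simp only [CW, WeierstrassCurve.baseChange, WeierstrassCurve.map, map_one, map_zero, map_neg]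
  constructor
  · intro h
    linear_combination h
  · intro h
    linear_combination h

omit [DecidableEq K] in
private theorem WC_nons (h2 : (2 : K) ≠ 0) (q : K) :
    ((CW q).baseChange (LL q)).toAffine.Nonsingular (xL q) (yL q) := by
  rw [WeierstrassCurve.Affine.nonsingular_iff']
  refine ⟨(WC_eq _ _).2 ?_, Or.inr ?_⟩
  · exact eqL q
  · simp only [CW, WeierstrassCurve.baseChange, WeierstrassCurve.map, map_one, map_zero, one_mul, add_zero]
    intro h
    have h1 : algebraMap (RatFunc K) (LL q) RatFunc.X +
        algebraMap (RatFunc K) (LL q) (RatFunc.C (2 : K)) * yL q = 0 := by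
      have h3 : algebraMap (RatFunc K) (LL q) (RatFunc.C (2 : K)) = 2 := by
        rw [map_ofNat, map_ofNat]
      rw [h3, ← h, xL]
      ring
    have h4 := (LL_uniq q _ _ h1).2
    rw [map_eq_zero] at h4
    exact h2 h4

theorem exists_g (h2 : (2 : K) ≠ 0) (h3 : (3 : K) ≠ 0) {q : K} (hq : q ≠ 0) (hq' : 432 * q ≠ 1) :
    ∃ g : PL q (LL q), IsG g := by
  exact ⟨.some (xL q) (yL q) (WC_nons h2 q), WC_nons h2 q, rfl⟩

open Classical in
theorem trans_exists {q : K} (g : PL q (LL q)) (hg : IsG g) (T : PL q K) :
    ∃ τ : LL q →ₐ[K] LL q, WeierstrassCurve.Affine.Point.map τ g =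
      g + WeierstrassCurve.Affine.Point.map (Algebra.ofId K (LL q)) T := by
  obtain ⟨hg0, hg1⟩ := hg
  let A : IntermediateField K (LL q) := algebraicClosure K (LL q)
  have hA : ∀ Q : PL q A, WeierstrassCurve.Affine.Point.map A.val Q ≠ g := by
    intro Q hQ
    rw [hg1] at hQ
    rcases Q with _ | ⟨x, y, hxy⟩
    · exact WeierstrassCurve.Affine.Point.some_ne_zero hg0 hQ.symm
    · have h1 := (WeierstrassCurve.Affine.Point.some.inj hQ).1
      have h2 : IsAlgebraic K (x : LL q) := mem_algebraicClosure_iff.1 x.2
      have h3 : (x : LL q) = xL q := h1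
      rw [h3] at h2
      exact xL_tr q h2
  let TA : PL q A := WeierstrassCurve.Affine.Point.map (Algebra.ofId K A) T
  have hTA : WeierstrassCurve.Affine.Point.map A.val TA =
      WeierstrassCurve.Affine.Point.map (Algebra.ofId K (LL q)) T := by
    show WeierstrassCurve.Affine.Point.map A.val
      (WeierstrassCurve.Affine.Point.map (Algebra.ofId K A) T) = _
    rw [WeierstrassCurve.Affine.Point.map_map]
    rfl
  rw [← hTA]
  rcases hP : g + WeierstrassCurve.Affine.Point.map A.val TA with _ | ⟨z, w, h⟩
  · exfalso
    refine hA (-TA) ?_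
    rw [map_neg]
    exact (eq_neg_of_add_eq_zero_left hP).symm
  · have heq : w ^ 2 + z * w = z ^ 3 - algebraMap K (LL q) q := (WC_eq z w).1 h.1
    have hz : Transcendental K z := by
      intro hz
      have hzA : z ∈ A := mem_algebraicClosure_iff.2 hz
      have hw : w ∈ A := by
        apply mem_algebraicClosure_iff.2
        have h1 : IsIntegral A w := by
          refine ⟨X ^ 2 + (C (⟨z, hzA⟩ : A) * X - C ((⟨z, hzA⟩ : A) ^ 3 - algebraMap K A q)), ?_, ?_⟩
          · refine monic_X_pow_add (n := 2) ?_
            refine lt_of_le_of_lt (degree_sub_le _ _) (max_lt ?_ ?_)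
            · exact lt_of_le_of_lt (degree_C_mul_X_le _) (by norm_num)
            · exact lt_of_le_of_lt degree_C_le (by norm_num)
          · rw [eval₂_add, eval₂_sub, eval₂_mul, eval₂_X_pow, eval₂_X, eval₂_C, eval₂_C, map_sub, map_pow]
            have h3 : algebraMap A (LL q) ⟨z, hzA⟩ = z := rfl
            have h4 : algebraMap A (LL q) (algebraMap K A q) = algebraMap K (LL q) q := rfl
            rw [h3, h4]
            linear_combination heq
        exact h1.isAlgebraic.restrictScalars K
      let SA : PL q A := .some ⟨z, hzA⟩ ⟨w, hw⟩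
        ((WeierstrassCurve.Affine.baseChange_nonsingular (CW q) (f := A.val) A.val.injective ⟨z, hzA⟩
          ⟨w, hw⟩).1 h)
      have hSA : WeierstrassCurve.Affine.Point.map A.val SA = .some z w h := rfl
      refine hA (SA - TA) ?_
      rw [map_sub, hSA, ← hP, add_sub_cancel_right]
    obtain ⟨τ, hx, hy⟩ := hom_exists z w hz heq
    refine ⟨τ, ?_⟩
    subst hg1
    rw [WeierstrassCurve.Affine.Point.map_some]
    simp only [hx, hy]

end WPL
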