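import Pool.Agent.Lib.MP_10e784_agWP.WA

/-!
# LEAF WD1: the degree of the function field over `K(r)`

PROOF.  `RatFunc.finrank_eq_max_natDegree`: `[K(X) : K(r)] = max (deg num) (deg denom)`.  `[LL q : K(X)] = 2` (`finrank_LL`).  Tower formula `Module.finrank_mul_finrank`; the field `K(r)` inside `LL q` is the image of `K(r)` inside `RatFunc K` (`IntermediateField.adjoin_map`, `IntermediateField.map`, `IntermediateField.adjoin_simple`-lemmas; or give `LL q` the algebra structure over `IntermediateField.adjoin K {r}` and compare the finranks by `Algebra.finrank_eq_of_equiv_equiv` / `LinearEquiv.finrank_eq` with the ring isomorphism of the two copies of `K(r)`).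
-/

set_option autoImplicit false

namespace WPL

open Polynomial

variable {K : Type} [Field K]

theorem finrank_adj (q : K) (r : RatFunc K) :
    Module.finrank (IntermediateField.adjoin K {algebraMap (RatFunc K) (LL q) r}) (LL q) =
      2 * max r.num.natDegree r.denom.natDegree := by
  have h1 : IntermediateField.adjoin K {algebraMap (RatFunc K) (LL q) r} =
      (IntermediateField.adjoin K {r}).map (IsScalarTower.toAlgHom K (RatFunc K) (LL q)) := by
    rw [IntermediateField.adjoin_map, Set.image_singleton]
    rfl
  have h2 := Algebra.finrank_eq_of_equiv_equiv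
    ((IntermediateField.adjoin K {r}).equivMap (IsScalarTower.toAlgHom K (RatFunc K) (LL q))).toRingEquiv
    (RingEquiv.refl (LL q)) (by ext z; rfl)
  rw [h1, ← h2, ← Module.finrank_mul_finrank (IntermediateField.adjoin K {r}) (RatFunc K) (LL q),
    RatFunc.finrank_eq_max_natDegree, finrank_LL, mul_comm]

theorem max_pos (r : RatFunc K) (hr : ¬ ∃ c : K, r = RatFunc.C c) : 0 < max r.num.natDegree r.denom.natDegree := by
  refine Nat.pos_of_ne_zero fun h => hr ?_
  exact (RatFunc.eq_C_iff r).2 (Nat.max_eq_zero_iff.1 h)

end WPL
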