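import Pool.Agent.Lib.MP_10e784_agWP.WC
import Pool.Agent.Lib.MP_10e784_agWP.WD1

/-!
# LEAF WD2: a group of translations which fixes a function

PROOF.  For `T ∈ V` choose `τ T` by `trans_exists`.  `τ T ∘ τ T'` sends `g` to `τ T (g + T') = g + T + T'` (`Point.map` of the composite, `Point.map_map`; `Point.map (τ T)` fixes the constant points because `(τ T).comp (Algebra.ofId K _) = Algebra.ofId K _`), so by `hom_ext` (`Point.map f g = Point.map f' g` implies `f xL = f' xL`, `f yL = f' yL`) it is `τ (T + T')`, and `τ 0 = id`.  So the `τ T` are automorphisms; they fix `K(r)`, `r` in `LL q`; `T ↦ τ T` is an injective homomorphism `Multiplicative V →* Gal(LL q / K(r))` (injective: `g + T = g + T'` implies `T = T'`, `Point.map` injective).  `H` = its range, `Nat.card H = Nat.card V`.  `LL q` is finite over `K(r)` (`finrank_adj`, `max_pos`).  `IntermediateField.finrank_fixedField_eq_card` and the tower `K(r) ⊆ fixedField H ⊆ LL q`: `Nat.card H` divides `finrank_adj`.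
-/

set_option autoImplicit false
set_option linter.unusedSectionVars false

namespace WPL

open Polynomial

variable {K : Type} [Field K] [DecidableEq K]

private theorem WD2_gal {B L : Type} [Field B] [Field L] [Algebra B L] [FiniteDimensional B L] {G : Type} [Group G]
    (ρ : G →* (L →ₐ[B] L)) (hρ : Function.Injective ρ) : Nat.card G ∣ Module.finrank B L := by
  let e := Algebra.IsAlgebraic.algEquivEquivAlgHom B L
  let ρ' : G →* (L ≃ₐ[B] L) := e.symm.toMonoidHom.comp ρ
  have hρ' : Function.Injective ρ' := fun a b h => hρ (e.symm.injective h)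
  have h1 : Nat.card G = Nat.card ρ'.range := Nat.card_congr (MonoidHom.ofInjective hρ').toEquiv
  rw [h1, ← IntermediateField.finrank_fixedField_eq_card ρ'.range,
    ← Module.finrank_mul_finrank B (IntermediateField.fixedField ρ'.range) L]
  exact Dvd.intro_left _ rfl

open Classical in
private theorem WD2_ext {q : K} {g : PL q (LL q)} (hg : IsG g) {f f' : LL q →ₐ[K] LL q}
    (h : WeierstrassCurve.Affine.Point.map f g = WeierstrassCurve.Affine.Point.map f' g) : f = f' := by
  obtain ⟨hn, rfl⟩ := hg
  rw [WeierstrassCurve.Affine.Point.map_some, WeierstrassCurve.Affine.Point.map_some,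
    WeierstrassCurve.Affine.Point.some.injEq] at h
  exact hom_ext f f' h.1 h.2

open Classical in
private theorem WD2_const {q : K} (f : LL q →ₐ[K] LL q) (T : PL q K) :
    WeierstrassCurve.Affine.Point.map f (WeierstrassCurve.Affine.Point.map (Algebra.ofId K (LL q)) T) =
      WeierstrassCurve.Affine.Point.map (Algebra.ofId K (LL q)) T := by
  have h : f.comp (Algebra.ofId K (LL q)) = Algebra.ofId K (LL q) := AlgHom.ext fun x => f.commutes x
  rw [WeierstrassCurve.Affine.Point.map_map, h]

open Classical in
theorem card_dvd {q : K} (g : PL q (LL q)) (hg : IsG g) (V : AddSubgroup (PL q K)) [Finite V] (r : RatFunc K)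
    (hr : ¬ ∃ c : K, r = RatFunc.C c)
    (hinv : ∀ T ∈ V, ∀ τ : LL q →ₐ[K] LL q, WeierstrassCurve.Affine.Point.map τ g =
      g + WeierstrassCurve.Affine.Point.map (Algebra.ofId K (LL q)) T →
      τ (algebraMap (RatFunc K) (LL q) r) = algebraMap (RatFunc K) (LL q) r) :
    Nat.card V ∣ 2 * max r.num.natDegree r.denom.natDegree := by
  have hfr := finrank_adj q r
  have hpos := max_pos r hr
  have hfin : FiniteDimensional (IntermediateField.adjoin K {algebraMap (RatFunc K) (LL q) r}) (LL q) :=
    FiniteDimensional.of_finrank_pos (by rw [hfr]; omega)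
  have hτ : ∀ T : V, ∃ τ : LL q →ₐ[K] LL q, WeierstrassCurve.Affine.Point.map τ g =
      g + WeierstrassCurve.Affine.Point.map (Algebra.ofId K (LL q)) (T : PL q K) := fun T => trans_exists g hg T
  choose τ hτ using hτ
  have hfix : ∀ (T : V) (x : LL q), x ∈ IntermediateField.adjoin K {algebraMap (RatFunc K) (LL q) r} →
      τ T x = x := by
    intro T x hx
    induction hx using IntermediateField.adjoin_induction with
    | mem x hx =>
      rw [Set.mem_singleton_iff] at hx
      rw [hx]
      exact hinv T T.2 (τ T) (hτ T)
    | algebraMap x => exact (τ T).commutes x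
    | add x y _ _ h1 h2 => rw [map_add, h1, h2]
    | inv x _ h1 => rw [map_inv₀, h1]
    | mul x y _ _ h1 h2 => rw [map_mul, h1, h2]
  let ρ : Multiplicative V →* (LL q →ₐ[IntermediateField.adjoin K {algebraMap (RatFunc K) (LL q) r}] LL q) :=
    { toFun := fun T => { (τ T.toAdd).toRingHom with commutes' := fun b => hfix T.toAdd _ b.2 }
      map_one' := by
        have h1 : τ 0 = AlgHom.id K (LL q) := by
          refine WD2_ext hg ?_
          rw [hτ]
          obtain ⟨hn, rfl⟩ := hg
          rw [AddSubgroup.coe_zero, map_zero, add_zero]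
          rfl
        refine AlgHom.ext fun x => ?_
        exact congrArg (fun f : LL q →ₐ[K] LL q => f x) h1
      map_mul' := fun T T' => by
        have h1 : τ (T.toAdd + T'.toAdd) = (τ T.toAdd).comp (τ T'.toAdd) := by
          refine WD2_ext hg ?_
          rw [hτ, ← WeierstrassCurve.Affine.Point.map_map, hτ, map_add, hτ, WD2_const, AddSubgroup.coe_add, map_add,
            add_assoc]
        refine AlgHom.ext fun x => ?_
        exact congrArg (fun f : LL q →ₐ[K] LL q => f x) h1 }
  have hρ : Function.Injective ρ := by
    intro T T' h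
    have h1 : τ T.toAdd = τ T'.toAdd := by
      refine AlgHom.ext fun x => ?_
      exact congrArg (fun f : LL q →ₐ[IntermediateField.adjoin K {algebraMap (RatFunc K) (LL q) r}] LL q => f x) h
    have h2 := hτ T.toAdd
    rw [h1, hτ] at h2
    have h3 := WeierstrassCurve.Affine.Point.map_injective (Algebra.ofId K (LL q)) (add_left_cancel h2)
    exact (Multiplicative.toAdd.injective (Subtype.ext h3)).symm
  have h1 := WD2_gal ρ hρ
  rw [hfr] at h1
  exact h1

end WPL
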