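import Pool.Agent.Lib.MP_10e784_agWP.WC

/-!
# LEAF WE: Frobenius

`gam g n = φ + n g`, `φ` the image of `g` under Frobenius.
PROOF.  `frob_const`: `(frobeniusAlgHom ..).comp (Algebra.ofId ..) = Algebra.ofId ..` (`Subsingleton` / `AlgHom.ext`, `x ^ p = x` in `ZMod p`), `Point.map_map`.  `frob_comm`: `ψ.comp frob = frob.comp ψ` (`map_pow`).  `gam_trans`: `Point.map τ` is additive: `φ ↦ frob (g + T') = φ + T'`, `n g ↦ n (g + T')`.  `map_sigma_g`: `σ (xL) = xL`, `σ (yL) = - yL - xL` is the negative (`negY`).  `gam_sigma` in the same way.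
-/

set_option autoImplicit false

namespace WPL

open Polynomial WeierstrassCurve.Affine

section

variable {p : ℕ} [Fact p.Prime] {q : ZMod p}

/-- Frobenius of the function field -/
noncomputable def frob (q : ZMod p) : LL q →ₐ[ZMod p] LL q := FiniteField.frobeniusAlgHom (ZMod p) (LL q)

theorem frob_apply (z : LL q) : frob q z = z ^ p := by
  rw [frob, FiniteField.frobeniusAlgHom_apply, ZMod.card]

open Classical in
/-- `φ + n g` -/
noncomputable def gam (g : PL q (LL q)) (n : ℤ) : PL q (LL q) := Point.map (frob q) g + n • g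

open Classical in
theorem frob_const (T : PL q (ZMod p)) :
    Point.map (frob q) (Point.map (Algebra.ofId (ZMod p) (LL q)) T) = Point.map (Algebra.ofId (ZMod p) (LL q)) T := by
  rw [Point.map_map]
  have h : (frob q).comp (Algebra.ofId (ZMod p) (LL q)) = Algebra.ofId (ZMod p) (LL q) :=
    Subsingleton.elim _ _
  rw [h]

open Classical in
theorem frob_comm (ψ : LL q →ₐ[ZMod p] LL q) (P : PL q (LL q)) :
    Point.map ψ (Point.map (frob q) P) = Point.map (frob q) (Point.map ψ P) := by
  rw [Point.map_map, Point.map_map]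
  have h : ψ.comp (frob q) = (frob q).comp ψ := by
    refine AlgHom.ext fun z => ?_
    rw [AlgHom.comp_apply, AlgHom.comp_apply, frob_apply, frob_apply, map_pow]
  rw [h]

open Classical in
theorem gam_trans (g : PL q (LL q)) (T : PL q (ZMod p)) (τ : LL q →ₐ[ZMod p] LL q)
    (h : Point.map τ g = g + Point.map (Algebra.ofId (ZMod p) (LL q)) T) (n : ℤ) :
    Point.map τ (gam g n) = gam g n + Point.map (Algebra.ofId (ZMod p) (LL q)) ((1 + n) • T) := by
  rw [gam, map_add, map_zsmul, frob_comm, h, map_add, frob_const, map_zsmul, add_smul, one_smul, smul_add]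
  abel

open Classical in
theorem gam_sigma (g : PL q (LL q)) (hg : IsG g) (σ : LL q →ₐ[ZMod p] LL q) (h : σ (yL q) = -yL q - xL q)
    (h' : σ (xL q) = xL q) (n : ℤ) : Point.map σ (gam g n) = -gam g n := by
  have hs : Point.map σ g = -g := by
    obtain ⟨hn, rfl⟩ := hg
    rw [Point.map_some, Point.neg_some, Point.some.injEq]
    refine ⟨h', ?_⟩
    rw [h, WeierstrassCurve.Affine.negY]
    simp [CW]
  rw [gam, map_add, map_zsmul, frob_comm, hs, map_neg, smul_neg, neg_add]

end

end WPL
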