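import Pool.Agent.Lib.MP_10e784_agWP.Defs

/-!
# LEAF WG: the `x`-coordinates of `P + Q` and `P - Q`

`sy a b` is `(a₀ b₀, a₀ b₁ + a₁ b₀, a₁ b₁)`, `GG q v` the forms of `WeierstrassCurve.addSubMap` for `y² + x y = x³ - q` (`b₂ = 1`, `b₄ = 0`, `b₆ = -4 q`, `b₈ = -q`).
PROOF.  `addsub`: cases: `P = 0` or `Q = 0`: direct (`e = 1` or so; `x(-Q) = x(Q)`: `xRep_neg`).  `P = (x₁, y₁)`, `Q = (x₂, y₂)`, `x₁ ≠ x₂`: `e = (x₁ - x₂)²`, slopes `(y₁ - y₂) / (x₁ - x₂)` and `(y₁ + y₂ + x₂) / (x₁ - x₂)`; `x(P ± Q) = l² + l - x₁ - x₂`; clear denominators and use the equations of the curve.  `x₁ = x₂`: `P = Q` or `P = -Q`; by symmetry (`sy` is symmetric) `P = Q`: `P - Q = 0`, `s' = x(2 P)`, `t' = 1`, `u' = 0`; if `2 y + x ≠ 0`: `e = 4 x³ + x² - 4 q = (2 y + x)²`, the duplication formula; if `2 y + x = 0`: `P + Q = 0` too: `s' = 1`, `t' = u' = 0`; `e = x⁴ + 8 q x + q ≠ 0` because the point is nonsingular (`3 x² - y ≠ 0` or `2 y + x ≠ 0`; `x⁴ + 8 q x + q = (3 x² - y)² + ..`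 modulo the equation).
-/

set_option autoImplicit false

namespace WPL

open Polynomial

/-- the symmetric functions of two points of the projective line -/
def sy {R : Type} [CommRing R] (a b : Fin 2 → R) : Fin 3 → R := ![a 0 * b 0, a 0 * b 1 + a 1 * b 0, a 1 * b 1]

/-- the map of sums and differences -/
def GG {R : Type} [CommRing R] (q : R) (v : Fin 3 → R) : Fin 3 → R :=
  ![v 0 ^ 2 + 4 * q * v 1 * v 2 + q * v 2 ^ 2, 2 * v 1 * v 0 + v 0 * v 2 - 4 * q * v 2 ^ 2, v 1 ^ 2 - 4 * v 0 * v 2]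

private theorem WG_GG {R : Type} [CommRing R] (q a b c d : R) :
    GG q (sy ![a, c] ![b, d]) =
      ![(a * b) ^ 2 + 4 * q * (a * d + c * b) * (c * d) + q * (c * d) ^ 2,
        2 * (a * d + c * b) * (a * b) + a * b * (c * d) - 4 * q * (c * d) ^ 2,
        (a * d + c * b) ^ 2 - 4 * (a * b) * (c * d)] := by
  rfl

private theorem WG_sy {R : Type} [CommRing R] (a b c d : R) :
    sy ![a, c] ![b, d] = ![a * b, a * d + c * b, c * d] := by
  rfl

private theorem WG_fin {R : Type} [CommRing R] {e u0 u1 u2 v0 v1 v2 : R} (h0 : u0 = e * v0)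
    (h1 : u1 = e * v1) (h2 : u2 = e * v2) (i : Fin 3) :
    (![u0, u1, u2] : Fin 3 → R) i = e * (![v0, v1, v2] : Fin 3 → R) i := by
  fin_cases i
  · exact h0
  · exact h1
  · exact h2

private theorem WG_comm {R : Type} [CommRing R] (a b : Fin 2 → R) : sy a b = sy b a := by
  unfold sy
  rw [mul_comm (a 0) (b 0), mul_comm (a 1) (b 1), mul_comm (a 0) (b 1), mul_comm (a 1) (b 0),
    add_comm (b 1 * a 0)]

section

variable {F : Type} [Field F] [DecidableEq F] {W : WeierstrassCurve.Affine F} {q : F}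

omit [DecidableEq F] in
private theorem WG_eq (h1 : W.a₁ = 1) (h2 : W.a₂ = 0) (h3 : W.a₃ = 0) (h4 : W.a₄ = 0)
    (h6 : W.a₆ = -q) {x y : F} (h : W.Nonsingular x y) : y ^ 2 + x * y = x ^ 3 - q := by
  have h7 := (W.equation_iff x y).1 h.1
  rw [h1, h2, h3, h4, h6] at h7
  linear_combination h7

omit [DecidableEq F] in
private theorem WG_negY (h1 : W.a₁ = 1) (h3 : W.a₃ = 0) (x y : F) : W.negY x y = -y - x := by
  unfold WeierstrassCurve.Affine.negY
  rw [h1, h3]
  ring

omit [DecidableEq F] in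
private theorem WG_addX (h1 : W.a₁ = 1) (h2 : W.a₂ = 0) (x1 x2 l : F) :
    W.addX x1 x2 l = l ^ 2 + l - x1 - x2 := by
  unfold WeierstrassCurve.Affine.addX
  rw [h1, h2]
  ring

/-- the double of a point -/
private theorem WG_self (h1 : W.a₁ = 1) (h2 : W.a₂ = 0) (h3 : W.a₃ = 0) (h4 : W.a₄ = 0)
    (h6 : W.a₆ = -q) {x y : F} (h : W.Nonsingular x y) : ∃ e : F, e ≠ 0 ∧ ∀ i,
      GG q (sy (WeierstrassCurve.Affine.Point.some x y h).xRep
        (WeierstrassCurve.Affine.Point.some x y h).xRep) i =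
        e * sy (WeierstrassCurve.Affine.Point.some x y h +
          WeierstrassCurve.Affine.Point.some x y h).xRep (0 : W.Point).xRep i := by
  have he := WG_eq h1 h2 h3 h4 h6 h
  rw [WeierstrassCurve.Affine.Point.xRep_zero, WeierstrassCurve.Affine.Point.xRep_some, WG_GG]
  by_cases hy : y = W.negY x y
  · rw [WeierstrassCurve.Affine.Point.add_self_of_Y_eq hy, WeierstrassCurve.Affine.Point.xRep_zero,
      WG_sy]
    rw [WG_negY h1 h3] at hy
    have hD : 2 * y + x = 0 := by linear_combination hy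
    have hN : 3 * x ^ 2 - y ≠ 0 := by
      intro hN
      have h7 := (W.nonsingular_iff x y).1 h
      rcases h7.2 with h8 | h8
      · refine h8 ?_
        rw [h1, h2, h4]
        linear_combination -hN
      · refine h8 ?_
        rw [h1, h3]
        linear_combination hD
    refine ⟨(3 * x ^ 2 - y) ^ 2, pow_ne_zero 2 hN, WG_fin ?_ ?_ ?_⟩
    · linear_combination (8 * x + 1) * he + (3 * x ^ 2 - y) * hD - 2 * x * (2 * y + x) * hD
    · linear_combination (2 * y + x) * hD - 4 * he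
    · ring
  · rw [WeierstrassCurve.Affine.Point.add_self_of_Y_ne hy, WeierstrassCurve.Affine.Point.xRep_some,
      WG_sy, WG_addX h1 h2, WeierstrassCurve.Affine.slope_of_Y_ne rfl hy, WG_negY h1 h3, h1, h2, h4]
    have hD : 2 * y + x ≠ 0 := by
      intro hD
      refine hy ?_
      rw [WG_negY h1 h3]
      linear_combination hD
    have hD' : y - (-y - x) ≠ 0 := by
      intro h8
      exact hD (by linear_combination h8)
    refine ⟨(2 * y + x) ^ 2, pow_ne_zero 2 hD, WG_fin ?_ ?_ ?_⟩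
    · have h9 : (2 * y + x) ^ 2 * ((((3 * x ^ 2 + 2 * 0 * x + 0 - 1 * y) / (y - (-y - x))) ^ 2 +
          (3 * x ^ 2 + 2 * 0 * x + 0 - 1 * y) / (y - (-y - x)) - x - x) * 1) =
          (3 * x ^ 2 - y) ^ 2 + (3 * x ^ 2 - y) * (2 * y + x) - 2 * x * (2 * y + x) ^ 2 := by
        have h10 : y - (-y - x) = 2 * y + x := by ring
        rw [h10]
        field_simp
        ring
      rw [h9]
      linear_combination (8 * x + 1) * he
    · linear_combination -4 * he
    · ring

private theorem WG_main (h1 : W.a₁ = 1) (h2 : W.a₂ = 0) (h3 : W.a₃ = 0) (h4 : W.a₄ = 0)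
    (h6 : W.a₆ = -q) (P Q : W.Point) : ∃ e : F, e ≠ 0 ∧ ∀ i,
      GG q (sy P.xRep Q.xRep) i = e * sy (P + Q).xRep (P - Q).xRep i := by
  rcases P with _ | ⟨x1, y1, hP⟩
  · have e1 : (WeierstrassCurve.Affine.Point.zero : W.Point) = 0 := rfl
    rw [e1, zero_add, zero_sub, WeierstrassCurve.Affine.Point.xRep_neg,
      WeierstrassCurve.Affine.Point.xRep_zero]
    rcases Q with _ | ⟨x2, y2, hQ⟩
    · have e2 : (WeierstrassCurve.Affine.Point.zero : W.Point) = 0 := rfl
      rw [e2, WeierstrassCurve.Affine.Point.xRep_zero, WG_GG, WG_sy]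
      exact ⟨1, one_ne_zero, WG_fin (by ring) (by ring) (by ring)⟩
    · rw [WeierstrassCurve.Affine.Point.xRep_some, WG_GG, WG_sy]
      exact ⟨1, one_ne_zero, WG_fin (by ring) (by ring) (by ring)⟩
  · rcases Q with _ | ⟨x2, y2, hQ⟩
    · have e2 : (WeierstrassCurve.Affine.Point.zero : W.Point) = 0 := rfl
      rw [e2, add_zero, sub_zero, WeierstrassCurve.Affine.Point.xRep_zero,
        WeierstrassCurve.Affine.Point.xRep_some, WG_GG, WG_sy]
      exact ⟨1, one_ne_zero, WG_fin (by ring) (by ring) (by ring)⟩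
    · by_cases hx : x1 = x2
      · have h5 : (WeierstrassCurve.Affine.Point.some x1 y1 hP).xRep =
            (WeierstrassCurve.Affine.Point.some x2 y2 hQ).xRep := by
          rw [WeierstrassCurve.Affine.Point.xRep_some, WeierstrassCurve.Affine.Point.xRep_some, hx]
        obtain ⟨e, he, h7⟩ := WG_self h1 h2 h3 h4 h6 hP
        rcases WeierstrassCurve.Affine.Point.eq_or_eq_neg_of_xRep_eq_xRep h5 with h8 | h8
        · refine ⟨e, he, fun i => ?_⟩
          rw [← h8, sub_self]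
          exact h7 i
        · refine ⟨e, he, fun i => ?_⟩
          have h9 : (WeierstrassCurve.Affine.Point.some x2 y2 hQ) =
              -(WeierstrassCurve.Affine.Point.some x1 y1 hP) := by rw [h8, neg_neg]
          rw [h9, WeierstrassCurve.Affine.Point.xRep_neg, add_neg_cancel, sub_neg_eq_add, h7 i]
          rw [WG_comm]
      · have hd : x1 - x2 ≠ 0 := sub_ne_zero.2 hx
        have he1 := WG_eq h1 h2 h3 h4 h6 hP
        have he2 := WG_eq h1 h2 h3 h4 h6 hQ
        rw [sub_eq_add_neg, WeierstrassCurve.Affine.Point.neg_some,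
          WeierstrassCurve.Affine.Point.add_of_X_ne hx, WeierstrassCurve.Affine.Point.add_of_X_ne hx,
          WeierstrassCurve.Affine.Point.xRep_some, WeierstrassCurve.Affine.Point.xRep_some,
          WeierstrassCurve.Affine.Point.xRep_some, WeierstrassCurve.Affine.Point.xRep_some,
          WG_GG, WG_sy, WG_addX h1 h2, WG_addX h1 h2, WeierstrassCurve.Affine.slope_of_X_ne hx,
          WeierstrassCurve.Affine.slope_of_X_ne hx, WG_negY h1 h3]
        obtain ⟨U, hU⟩ : ∃ U, U = (y1 - y2) * (y1 - y2 + (x1 - x2)) := ⟨_, rfl⟩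
        obtain ⟨V, hV⟩ : ∃ V, V = (y1 + y2 + x2) * (y1 + y2 + x1) := ⟨_, rfl⟩
        have hX : ((y1 - y2) / (x1 - x2)) ^ 2 + (y1 - y2) / (x1 - x2) - x1 - x2 =
            U / (x1 - x2) ^ 2 - (x1 + x2) := by
          rw [hU]
          field_simp
          ring
        have hY : ((y1 - (-y2 - x2)) / (x1 - x2)) ^ 2 + (y1 - (-y2 - x2)) / (x1 - x2) - x1 - x2 =
            V / (x1 - x2) ^ 2 - (x1 + x2) := by
          rw [hV]
          field_simp
          ring
        rw [hX, hY]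
        have hUV : U + V = 2 * (y1 ^ 2 + x1 * y1) + 2 * (y2 ^ 2 + x2 * y2) + x1 * x2 := by
          rw [hU, hV]
          ring
        have hUV2 : U * V = (y1 ^ 2 + x1 * y1 + (y2 ^ 2 + x2 * y2)) ^ 2 +
            (y1 ^ 2 + x1 * y1 + (y2 ^ 2 + x2 * y2)) * (x1 * x2) -
            (y2 ^ 2 + x2 * y2) * x1 ^ 2 - (y1 ^ 2 + x1 * y1) * x2 ^ 2 -
            4 * (y1 ^ 2 + x1 * y1) * (y2 ^ 2 + x2 * y2) := by
          rw [hU, hV]
          ring
        rw [he1, he2] at hUV hUV2
        refine ⟨(x1 - x2) ^ 2, pow_ne_zero 2 hd, WG_fin ?_ ?_ ?_⟩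
        · have h9 : (x1 - x2) ^ 2 * ((U / (x1 - x2) ^ 2 - (x1 + x2)) * (V / (x1 - x2) ^ 2 - (x1 + x2))) =
              (U * V - (x1 + x2) * (x1 - x2) ^ 2 * (U + V) + (x1 + x2) ^ 2 * (x1 - x2) ^ 4) /
                (x1 - x2) ^ 2 := by
            field_simp
            ring
          rw [h9, hUV, hUV2, eq_div_iff (pow_ne_zero 2 hd)]
          ring
        · have h9 : (x1 - x2) ^ 2 * ((U / (x1 - x2) ^ 2 - (x1 + x2)) * 1 +
              1 * (V / (x1 - x2) ^ 2 - (x1 + x2))) = U + V - 2 * (x1 + x2) * (x1 - x2) ^ 2 := by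
            field_simp
            ring
          rw [h9, hUV]
          ring
        · ring

end

open Classical in
theorem addsub {K : Type} [Field K] {q : K} {L : Type} [Field L] [Algebra K L] (P Q : PL q L) :
    ∃ e : L, e ≠ 0 ∧ ∀ i, GG (algebraMap K L q) (sy P.xRep Q.xRep) i = e * sy (P + Q).xRep (P - Q).xRep i := by
  refine WG_main (q := algebraMap K L q) ?_ ?_ ?_ ?_ ?_ P Q
  · change algebraMap K L 1 = 1
    exact map_one _
  · change algebraMap K L 0 = 0
    exact map_zero _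
  · change algebraMap K L 0 = 0
    exact map_zero _
  · change algebraMap K L 0 = 0
    exact map_zero _
  · change algebraMap K L (-q) = -algebraMap K L q
    exact map_neg _ _

end WPL
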