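import Pool.Agent.Lib.MP_10e784_agWP.WG

/-!
# LEAF WGb: the forms have no common zero

PROOF.  `GG_ne`: `WeierstrassCurve.addSubMap_ne_zero` for `⟨1, 0, 0, 0, -q⟩`, `Δ = q (1 - 432 q)` up to sign (compute), over any field in which `q (1 - 432 q) ≠ 0`.  `GG_cop`: the same over `K[X]` by `addSubMapCoeff_condition`: if `v` is unimodular so is `GG v` (`Ideal.span`, the fourth powers).
-/

set_option autoImplicit false

namespace WPL

open Polynomial

private theorem WGb_eval {R : Type} [CommRing R] (q : R) (v : Fin 3 → R) (i : Fin 3) :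
    MvPolynomial.eval v (WeierstrassCurve.addSubMap (⟨1, 0, 0, 0, -q⟩ : WeierstrassCurve R) i) = GG q v i := by
  fin_cases i <;> simp [WeierstrassCurve.addSubMap, GG, WeierstrassCurve.b₂, WeierstrassCurve.b₄,
    WeierstrassCurve.b₆, WeierstrassCurve.b₈] <;> ring

private theorem WGb_ell {R : Type} [CommRing R] {q : R} (h : IsUnit (q * (1 - 432 * q))) :
    (⟨1, 0, 0, 0, -q⟩ : WeierstrassCurve R).IsElliptic := by
  refine ⟨?_⟩
  have e : (⟨1, 0, 0, 0, -q⟩ : WeierstrassCurve R).Δ = q * (1 - 432 * q) := by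
    simp [WeierstrassCurve.Δ, WeierstrassCurve.b₂, WeierstrassCurve.b₄, WeierstrassCurve.b₆,
      WeierstrassCurve.b₈]
    ring
  rw [e]
  exact h

private theorem WGb_mem {R : Type} [CommRing R] {q : R} (h : IsUnit (q * (1 - 432 * q))) (v : Fin 3 → R)
    (i : Fin 3) : v i ^ 4 ∈ Ideal.span (Set.range (GG q v)) := by
  have hW := WGb_ell h
  rw [← WeierstrassCurve.addSubMapCoeff_condition (⟨1, 0, 0, 0, -q⟩ : WeierstrassCurve R) v i]
  refine Ideal.sum_mem _ fun j _ => Ideal.mul_mem_left _ _ ?_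
  rw [WGb_eval]
  exact Ideal.subset_span ⟨j, rfl⟩

theorem GG_ne {K : Type} [Field K] {q : K} (hq : q ≠ 0) (hq' : 432 * q ≠ 1) {v : Fin 3 → K} (hv : v ≠ 0) :
    GG q v ≠ 0 := by
  have hW := WGb_ell (q := q) (mul_ne_zero hq (sub_ne_zero.2 hq'.symm)).isUnit
  have h := WeierstrassCurve.addSubMap_ne_zero (⟨1, 0, 0, 0, -q⟩ : WeierstrassCurve K) hv
  intro h0
  apply h
  funext i
  rw [WGb_eval, h0]

theorem GG_cop {K : Type} [Field K] {q : K} (hq : q ≠ 0) (hq' : 432 * q ≠ 1) {v : Fin 3 → K[X]}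
    (hv : Ideal.span (Set.range v) = ⊤) : Ideal.span (Set.range (GG (C q) v)) = ⊤ := by
  have hu : IsUnit (C q * (1 - 432 * C q)) := by
    have e0 : (C (432 : K) : K[X]) = 432 := map_ofNat C 432
    have e : C q * (1 - 432 * C q) = C (q * (1 - 432 * q)) := by
      rw [C_mul, C_sub, C_mul, e0, C_1]
    rw [e]
    exact (mul_ne_zero hq (sub_ne_zero.2 hq'.symm)).isUnit.map C
  have h1 := Ideal.span_pow_eq_top _ hv 4
  rw [eq_top_iff, ← h1, Ideal.span_le]
  rintro _ ⟨_, ⟨i, rfl⟩, rfl⟩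
  exact WGb_mem hu v i

end WPL
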