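import Pool.Agent.Lib.MP_10e784_agWP.WGb

/-!
# LEAF WI: heights

`md a = max (deg a₀) (deg a₁)`, `mt v` the maximum of the three degrees.
PROOF.  `sy_cop`: if `a`, `b` are coprime pairs the three entries of `sy a b` generate the unit ideal: a prime (irreducible) `π` which divides `a₀ b₀`, `a₀ b₁ + a₁ b₀`, `a₁ b₁`: modulo `π` (a field) the binary forms `a₀ X + a₁ Y`.. : `π ∣ a₀` or `π ∣ b₀`; if `π ∣ a₀` then `π ∤ a₁`, so `π ∣ b₁` and from the middle one `π ∣ a₁ b₀`, `π ∣ b₀`, contradiction; the other case in the same way.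
`mt_sy`: the coefficients of degree `md a + md b` of the three entries are `sy (α) (β)`, `α`, `β` the vectors of the coefficients of degree `md a`, `md b` (not zero); `sy α β ≠ 0` in a field by the same argument; so the maximum of the degrees is `md a + md b` (`a ≠ 0`, `b ≠ 0`).
`mt_GG`: the coefficients of degree `2 m`, `m = mt v`, of `GG (C q) v` are `GG q γ`, `γ ≠ 0` the coefficients of degree `m` of `v`: not all zero (`GG_ne`).
`par_poly`: `G = GG (C q) (sy a b)` and `S = sy c d` are unimodular (`sy_cop`, `GG_cop`) and proportional (all `2 x 2` minors vanish), so `G = κ S` with a constant `κ ≠ 0` (`1 = ∑ m_i S_i`, so `G_j = ∑ m_i S_i G_j = (∑ m_i G_i) S_j`, and vice versa: the factor is a unit): `mt G = mt S`, i.e. `2 (md a + md b) = md c + md d`.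
-/

set_option autoImplicit false

namespace WPL

open Polynomial

variable {K : Type} [Field K]

/-- the maximum of the degrees of a pair -/
noncomputable def md (a : Fin 2 → K[X]) : ℕ := max (a 0).natDegree (a 1).natDegree

/-- the maximum of the degrees of a triple -/
noncomputable def mt (v : Fin 3 → K[X]) : ℕ := max (v 0).natDegree (max (v 1).natDegree (v 2).natDegree)

theorem sy_cop {a b : Fin 2 → K[X]} (ha : IsCoprime (a 0) (a 1)) (hb : IsCoprime (b 0) (b 1)) :
    Ideal.span (Set.range (sy a b)) = ⊤ := by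
  obtain ⟨I, hI⟩ : ∃ I : Ideal K[X], I = Ideal.span (Set.range (sy a b)) := ⟨_, rfl⟩
  have h0 : a 0 * b 0 ∈ I := by
    rw [hI]
    exact Ideal.subset_span ⟨0, rfl⟩
  have h1 : a 0 * b 1 + a 1 * b 0 ∈ I := by
    rw [hI]
    exact Ideal.subset_span ⟨1, rfl⟩
  have h2 : a 1 * b 1 ∈ I := by
    rw [hI]
    exact Ideal.subset_span ⟨2, rfl⟩
  have r0 : a 0 * b 0 ∈ I.radical := Ideal.le_radical h0
  have r2 : a 1 * b 1 ∈ I.radical := Ideal.le_radical h2
  have r1 : a 0 * b 1 ∈ I.radical := by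
    refine ⟨2, ?_⟩
    have e : (a 0 * b 1) ^ 2 = a 0 * b 1 * (a 0 * b 1 + a 1 * b 0) - a 1 * b 1 * (a 0 * b 0) := by ring
    rw [e]
    exact I.sub_mem (I.mul_mem_left _ h1) (I.mul_mem_left _ h0)
  have r3 : a 1 * b 0 ∈ I.radical := by
    refine ⟨2, ?_⟩
    have e : (a 1 * b 0) ^ 2 = a 1 * b 0 * (a 0 * b 1 + a 1 * b 0) - a 1 * b 1 * (a 0 * b 0) := by ring
    rw [e]
    exact I.sub_mem (I.mul_mem_left _ h1) (I.mul_mem_left _ h0)
  obtain ⟨u, u', hu⟩ := ha
  obtain ⟨w, w', hw⟩ := hb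
  rw [← hI, ← Ideal.radical_eq_top, Ideal.eq_top_iff_one]
  have e : (1 : K[X]) = u * w * (a 0 * b 0) + u * w' * (a 0 * b 1) + (u' * w * (a 1 * b 0) +
      u' * w' * (a 1 * b 1)) := by
    have : (1 : K[X]) = (u * a 0 + u' * a 1) * (w * b 0 + w' * b 1) := by rw [hu, hw, one_mul]
    rw [this]
    ring
  rw [e]
  exact Ideal.add_mem _ (Ideal.add_mem _ (Ideal.mul_mem_left _ _ r0) (Ideal.mul_mem_left _ _ r1))
    (Ideal.add_mem _ (Ideal.mul_mem_left _ _ r3) (Ideal.mul_mem_left _ _ r2))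

private theorem WI_top {ι : Type} (v : ι → K[X]) (n : ℕ) (hle : ∀ i, (v i).natDegree ≤ n)
    (hex : ∃ i, (v i).natDegree = n) (hv : v ≠ 0) : ∃ i, (v i).coeff n ≠ 0 := by
  by_contra hcon
  push Not at hcon
  obtain ⟨i, hi⟩ := hex
  have h1 : (v i).leadingCoeff = 0 := by
    rw [leadingCoeff, hi]
    exact hcon i
  have h2 : n = 0 := by
    rw [← hi, leadingCoeff_eq_zero.1 h1, natDegree_zero]
  refine hv (funext fun j => ?_)
  have h3 := hle j
  rw [h2] at h3
  have h4 := eq_C_of_natDegree_le_zero h3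
  have h5 := hcon j
  rw [h2] at h5
  rw [h4, h5, C_0]
  rfl

private theorem WI_md_le (a : Fin 2 → K[X]) (i : Fin 2) : (a i).natDegree ≤ md a := by
  unfold md
  fin_cases i
  · exact le_max_left _ _
  · exact le_max_right _ _

private theorem WI_md_ex {a : Fin 2 → K[X]} (ha : a ≠ 0) : ∃ i, (a i).coeff (md a) ≠ 0 := by
  refine WI_top a (md a) (WI_md_le a) ?_ ha
  unfold md
  rcases le_total (a 0).natDegree (a 1).natDegree with h | h
  · exact ⟨1, (max_eq_right h).symm⟩
  · exact ⟨0, (max_eq_left h).symm⟩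

private theorem WI_mt_le (v : Fin 3 → K[X]) (i : Fin 3) : (v i).natDegree ≤ mt v := by
  unfold mt
  fin_cases i
  · exact le_max_left _ _
  · exact (le_max_left _ _).trans (le_max_right _ _)
  · exact (le_max_right _ _).trans (le_max_right _ _)

private theorem WI_mt_ex {v : Fin 3 → K[X]} (hv : v ≠ 0) : ∃ i, (v i).coeff (mt v) ≠ 0 := by
  refine WI_top v (mt v) (WI_mt_le v) ?_ hv
  unfold mt
  rcases le_total (v 1).natDegree (v 2).natDegree with h | h
  · rw [max_eq_right h]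
    rcases le_total (v 0).natDegree (v 2).natDegree with h' | h'
    · exact ⟨2, (max_eq_right h').symm⟩
    · exact ⟨0, (max_eq_left h').symm⟩
  · rw [max_eq_left h]
    rcases le_total (v 0).natDegree (v 1).natDegree with h' | h'
    · exact ⟨1, (max_eq_right h').symm⟩
    · exact ⟨0, (max_eq_left h').symm⟩

private theorem WI_mt_eq (v : Fin 3 → K[X]) (n : ℕ) (hle : ∀ i, (v i).natDegree ≤ n)
    (hex : ∃ i, (v i).coeff n ≠ 0) : mt v = n := by
  refine le_antisymm (max_le (hle 0) (max_le (hle 1) (hle 2))) ?_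
  obtain ⟨i, hi⟩ := hex
  exact (le_natDegree_of_ne_zero hi).trans (WI_mt_le v i)

private theorem WI_mul_le {p r : K[X]} {m n : ℕ} (hp : p.natDegree ≤ m) (hr : r.natDegree ≤ n) :
    (p * r).natDegree ≤ m + n :=
  natDegree_mul_le.trans (Nat.add_le_add hp hr)

private theorem WI_add_le {p r : K[X]} {n : ℕ} (hp : p.natDegree ≤ n) (hr : r.natDegree ≤ n) :
    (p + r).natDegree ≤ n :=
  (natDegree_add_le p r).trans (max_le hp hr)

private theorem WI_sub_le {p r : K[X]} {n : ℕ} (hp : p.natDegree ≤ n) (hr : r.natDegree ≤ n) :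
    (p - r).natDegree ≤ n :=
  (natDegree_sub_le p r).trans (max_le hp hr)

private theorem WI_C_le {p : K[X]} {n : ℕ} (c : K) (hp : p.natDegree ≤ n) : (C c * p).natDegree ≤ n :=
  (natDegree_C_mul_le c p).trans hp

theorem mt_sy {a b : Fin 2 → K[X]} (ha : a ≠ 0) (hb : b ≠ 0) : mt (sy a b) = md a + md b := by
  have hc : ∀ i j, (a i * b j).coeff (md a + md b) = (a i).coeff (md a) * (b j).coeff (md b) := fun i j =>
    coeff_mul_add_eq_of_natDegree_le (WI_md_le a i) (WI_md_le b j)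
  have hl : ∀ i j, (a i * b j).natDegree ≤ md a + md b := fun i j => WI_mul_le (WI_md_le a i) (WI_md_le b j)
  refine WI_mt_eq _ _ ?_ ?_
  · intro i
    fin_cases i
    · exact hl 0 0
    · exact WI_add_le (hl 0 1) (hl 1 0)
    · exact hl 1 1
  · by_contra hcon
    push Not at hcon
    have h0 : (a 0).coeff (md a) * (b 0).coeff (md b) = 0 := by
      rw [← hc]
      exact hcon 0
    have h2 : (a 1).coeff (md a) * (b 1).coeff (md b) = 0 := by
      rw [← hc]
      exact hcon 2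
    have h1 : (a 0).coeff (md a) * (b 1).coeff (md b) + (a 1).coeff (md a) * (b 0).coeff (md b) = 0 := by
      rw [← hc, ← hc, ← coeff_add]
      exact hcon 1
    have h3 : (a 0).coeff (md a) * (b 1).coeff (md b) = 0 := by
      have e : ((a 0).coeff (md a) * (b 1).coeff (md b)) ^ 2 = 0 := by
        linear_combination ((a 0).coeff (md a) * (b 1).coeff (md b)) * h1 -
          (a 1).coeff (md a) * (b 1).coeff (md b) * h0
      exact pow_eq_zero_iff (two_ne_zero) |>.1 e
    have h4 : (a 1).coeff (md a) * (b 0).coeff (md b) = 0 := by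
      rw [h3, zero_add] at h1
      exact h1
    obtain ⟨i, hi⟩ := WI_md_ex ha
    obtain ⟨j, hj⟩ := WI_md_ex hb
    have h5 : ∀ i j : Fin 2, (a i).coeff (md a) * (b j).coeff (md b) = 0 := by
      intro i j
      fin_cases i <;> fin_cases j
      · exact h0
      · exact h3
      · exact h4
      · exact h2
    exact mul_ne_zero hi hj (h5 i j)

theorem mt_GG {q : K} (hq : q ≠ 0) (hq' : 432 * q ≠ 1) {v : Fin 3 → K[X]} (hv : v ≠ 0) :
    mt (GG (C q) v) = 2 * mt v := by
  have hc : ∀ i j, (v i * v j).coeff (2 * mt v) = (v i).coeff (mt v) * (v j).coeff (mt v) := fun i j => by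
    rw [two_mul]
    exact coeff_mul_add_eq_of_natDegree_le (WI_mt_le v i) (WI_mt_le v j)
  have hl : ∀ i j, (v i * v j).natDegree ≤ 2 * mt v := fun i j => by
    rw [two_mul]
    exact WI_mul_le (WI_mt_le v i) (WI_mt_le v j)
  have e0 : GG (C q) v 0 = v 0 * v 0 + C (4 * q) * (v 1 * v 2) + C q * (v 2 * v 2) := by
    rw [C_mul]
    show v 0 ^ 2 + 4 * C q * v 1 * v 2 + C q * v 2 ^ 2 = _
    rw [show (C (4 : K) : K[X]) = 4 from rfl]
    ring
  have e1 : GG (C q) v 1 = C 2 * (v 1 * v 0) + v 0 * v 2 - C (4 * q) * (v 2 * v 2) := by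
    rw [C_mul]
    show 2 * v 1 * v 0 + v 0 * v 2 - 4 * C q * v 2 ^ 2 = _
    rw [show (C (4 : K) : K[X]) = 4 from rfl, show (C (2 : K) : K[X]) = 2 from rfl]
    ring
  have e2 : GG (C q) v 2 = v 1 * v 1 - C 4 * (v 0 * v 2) := by
    show v 1 ^ 2 - 4 * v 0 * v 2 = _
    rw [show (C (4 : K) : K[X]) = 4 from rfl]
    ring
  obtain ⟨γ, hγ⟩ : ∃ γ : Fin 3 → K, ∀ i, (v i).coeff (mt v) = γ i := ⟨_, fun _ => rfl⟩
  have hγ0 : γ ≠ 0 := by
    obtain ⟨i, hi⟩ := WI_mt_ex hv
    intro h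
    rw [hγ i, h] at hi
    exact hi rfl
  have hco : ∀ i, (GG (C q) v i).coeff (2 * mt v) = GG q γ i := by
    intro i
    fin_cases i
    · show (GG (C q) v 0).coeff (2 * mt v) = γ 0 ^ 2 + 4 * q * γ 1 * γ 2 + q * γ 2 ^ 2
      rw [e0, coeff_add, coeff_add, coeff_C_mul, coeff_C_mul, hc, hc, hc, hγ, hγ, hγ]
      ring
    · show (GG (C q) v 1).coeff (2 * mt v) = 2 * γ 1 * γ 0 + γ 0 * γ 2 - 4 * q * γ 2 ^ 2
      rw [e1, coeff_sub, coeff_add, coeff_C_mul, coeff_C_mul, hc, hc, hc, hγ, hγ, hγ]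
      ring
    · show (GG (C q) v 2).coeff (2 * mt v) = γ 1 ^ 2 - 4 * γ 0 * γ 2
      rw [e2, coeff_sub, coeff_C_mul, hc, hc, hγ, hγ, hγ]
      ring
  refine WI_mt_eq _ _ ?_ ?_
  · intro i
    fin_cases i
    · show (GG (C q) v 0).natDegree ≤ _
      rw [e0]
      exact WI_add_le (WI_add_le (hl 0 0) (WI_C_le _ (hl 1 2))) (WI_C_le _ (hl 2 2))
    · show (GG (C q) v 1).natDegree ≤ _
      rw [e1]
      exact WI_sub_le (WI_add_le (WI_C_le _ (hl 1 0)) (hl 0 2)) (WI_C_le _ (hl 2 2))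
    · show (GG (C q) v 2).natDegree ≤ _
      rw [e2]
      exact WI_sub_le (hl 1 1) (WI_C_le _ (hl 0 2))
  · by_contra hcon
    push Not at hcon
    refine GG_ne hq hq' hγ0 (funext fun i => ?_)
    rw [← hco i]
    exact hcon i

private theorem WI_span {v : Fin 3 → K[X]} (h : Ideal.span (Set.range v) = ⊤) :
    ∃ m : Fin 3 → K[X], ∑ i, m i * v i = 1 := by
  have h1 : (1 : K[X]) ∈ Ideal.span (Set.range v) := by
    rw [h]
    exact Submodule.mem_top
  obtain ⟨m, hm⟩ := (Ideal.mem_span_range_iff_exists_fun).1 h1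
  exact ⟨m, hm⟩

private theorem WI_ne {v : Fin 3 → K[X]} (h : Ideal.span (Set.range v) = ⊤) : v ≠ 0 := by
  rintro rfl
  obtain ⟨m, hm⟩ := WI_span h
  simp at hm

theorem par_poly {q : K} (hq : q ≠ 0) (hq' : 432 * q ≠ 1) {a b c d : Fin 2 → K[X]} (ha : IsCoprime (a 0) (a 1))
    (hb : IsCoprime (b 0) (b 1)) (hc : IsCoprime (c 0) (c 1)) (hd : IsCoprime (d 0) (d 1))
    (h : ∀ i j, GG (C q) (sy a b) i * sy c d j = GG (C q) (sy a b) j * sy c d i) :
    md c + md d = 2 * md a + 2 * md b := by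
  have hne : ∀ {e : Fin 2 → K[X]}, IsCoprime (e 0) (e 1) → e ≠ 0 := by
    intro e he h0
    rw [h0] at he
    obtain ⟨u, w, huw⟩ := he
    simp at huw
  have hsy := sy_cop ha hb
  have hG := GG_cop hq hq' hsy
  have hS := sy_cop hc hd
  have hmG : mt (GG (C q) (sy a b)) = 2 * (md a + md b) := by
    rw [mt_GG hq hq' (WI_ne hsy), mt_sy (hne ha) (hne hb)]
  have hmS : mt (sy c d) = md c + md d := mt_sy (hne hc) (hne hd)
  obtain ⟨G, hGd⟩ : ∃ G, G = GG (C q) (sy a b) := ⟨_, rfl⟩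
  obtain ⟨S, hSd⟩ : ∃ S, S = sy c d := ⟨_, rfl⟩
  rw [← hGd] at hmG hG h
  rw [← hSd] at hmS hS h
  obtain ⟨m, hm⟩ := WI_span hS
  obtain ⟨n, hn⟩ := WI_span hG
  obtain ⟨κ, hκ⟩ : ∃ κ, κ = ∑ i, m i * G i := ⟨_, rfl⟩
  obtain ⟨κ', hκ'⟩ : ∃ κ', κ' = ∑ i, n i * S i := ⟨_, rfl⟩
  have h1 : ∀ j, G j = κ * S j := by
    intro j
    calc G j = (∑ i, m i * S i) * G j := by rw [hm, one_mul]
      _ = ∑ i, m i * (G j * S i) := by
          rw [Finset.sum_mul]
          exact Finset.sum_congr rfl fun i _ => by ring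
      _ = ∑ i, m i * (G i * S j) := Finset.sum_congr rfl fun i _ => by rw [h i j]
      _ = κ * S j := by
          rw [hκ, Finset.sum_mul]
          exact Finset.sum_congr rfl fun i _ => by ring
  have h2 : ∀ j, S j = κ' * G j := by
    intro j
    calc S j = (∑ i, n i * G i) * S j := by rw [hn, one_mul]
      _ = ∑ i, n i * (G i * S j) := by
          rw [Finset.sum_mul]
          exact Finset.sum_congr rfl fun i _ => by ring
      _ = ∑ i, n i * (G j * S i) := Finset.sum_congr rfl fun i _ => by rw [h i j]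
      _ = κ' * G j := by
          rw [hκ', Finset.sum_mul]
          exact Finset.sum_congr rfl fun i _ => by ring
  have h3 : κ' * κ = 1 := by
    rw [← hm, hκ, Finset.mul_sum]
    refine Finset.sum_congr rfl fun i _ => ?_
    rw [h2 i]
    ring
  have hu : IsUnit κ := IsUnit.of_mul_eq_one_right κ' h3
  obtain ⟨r, hr, hrκ⟩ := Polynomial.isUnit_iff.1 hu
  have h4 : ∀ j, (G j).natDegree = (S j).natDegree := by
    intro j
    rw [h1 j, ← hrκ]
    exact natDegree_C_mul hr.ne_zero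
  have h5 : mt G = mt S := by
    unfold mt
    rw [h4, h4, h4]
  omega

end WPL
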