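import Pool.Agent.Lib.MP_10e784_agWP.WI
import Pool.Agent.Lib.MP_10e784_agWP.WE

/-!
# LEAF WJ: the `x`-coordinates as pairs of coprime polynomials; the parallelogram law

PROOF.  `Rx_par`: `addsub` with `L = LL q`; the values at `xL q` of the polynomials `GG (C q) (sy a b)` and `sy c d` are the corresponding expressions with `e₁ xRep P`, .. (homogeneity); so the minors vanish at `xL q`, hence are `0` (`xL_tr`); `par_poly`.
`Rx_uniq`: two coprime pairs which represent the same point: `a₀ b₁ = a₁ b₀` (injectivity), so they differ by a constant.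
`Rx_g`: `(X, 1)`.  `Rx_frob`: `(X ^ p, 1)`.  `Rx_gam`: `σ` of `sigma`; `gam_sigma` and `xRep_neg`: if `gam g n = some z w` then `σ z = z`, so `z` is the image of `r` in `RatFunc` (`fixed_sigma`): `(r.num, r.denom)` (`RatFunc.isCoprime_num_denom`, `aeval_xL`, `RatFunc.num_div_denom`), `e` = the value of the denominator; if `gam g n = 0`: `(1, 0)`.
`gam_par`: `Rx_par` with `P = gam g n`, `Q = g`.
-/

set_option autoImplicit false

namespace WPL

open Polynomial WeierstrassCurve.Affine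

section

variable {K : Type} [Field K]

/-- the coprime pair `a` represents the `x`-coordinate of `P` -/
def Rx {q : K} (P : PL q (LL q)) (a : Fin 2 → K[X]) : Prop :=
  IsCoprime (a 0) (a 1) ∧ ∃ e : LL q, e ≠ 0 ∧ ∀ i, aeval (xL q) (a i) = e * P.xRep i

private theorem WJ_sy {R : Type} [CommRing R] (e₁ e₂ : R) (a b : Fin 2 → R) (i : Fin 3) :
    sy (fun i => e₁ * a i) (fun i => e₂ * b i) i = e₁ * e₂ * sy a b i := by
  fin_cases i
  · show e₁ * a 0 * (e₂ * b 0) = e₁ * e₂ * (a 0 * b 0)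
    ring
  · show e₁ * a 0 * (e₂ * b 1) + e₁ * a 1 * (e₂ * b 0) = e₁ * e₂ * (a 0 * b 1 + a 1 * b 0)
    ring
  · show e₁ * a 1 * (e₂ * b 1) = e₁ * e₂ * (a 1 * b 1)
    ring

private theorem WJ_GG {R : Type} [CommRing R] (q e : R) (v : Fin 3 → R) (i : Fin 3) :
    GG q (fun i => e * v i) i = e ^ 2 * GG q v i := by
  fin_cases i
  · show (e * v 0) ^ 2 + 4 * q * (e * v 1) * (e * v 2) + q * (e * v 2) ^ 2 =
      e ^ 2 * (v 0 ^ 2 + 4 * q * v 1 * v 2 + q * v 2 ^ 2)
    ring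
  · show 2 * (e * v 1) * (e * v 0) + (e * v 0) * (e * v 2) - 4 * q * (e * v 2) ^ 2 =
      e ^ 2 * (2 * v 1 * v 0 + v 0 * v 2 - 4 * q * v 2 ^ 2)
    ring
  · show (e * v 1) ^ 2 - 4 * (e * v 0) * (e * v 2) = e ^ 2 * (v 1 ^ 2 - 4 * v 0 * v 2)
    ring

private theorem WJ_map_sy {R S : Type} [CommRing R] [CommRing S] (f : R →+* S) (a b : Fin 2 → R) (i : Fin 3) :
    f (sy a b i) = sy (fun i => f (a i)) (fun i => f (b i)) i := by
  fin_cases i
  · show f (a 0 * b 0) = f (a 0) * f (b 0)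
    rw [map_mul]
  · show f (a 0 * b 1 + a 1 * b 0) = f (a 0) * f (b 1) + f (a 1) * f (b 0)
    rw [map_add, map_mul, map_mul]
  · show f (a 1 * b 1) = f (a 1) * f (b 1)
    rw [map_mul]

private theorem WJ_map_GG {R S : Type} [CommRing R] [CommRing S] (f : R →+* S) (q : R) (v : Fin 3 → R) (i : Fin 3) :
    f (GG q v i) = GG (f q) (fun i => f (v i)) i := by
  fin_cases i
  · show f (v 0 ^ 2 + 4 * q * v 1 * v 2 + q * v 2 ^ 2) =
      f (v 0) ^ 2 + 4 * f q * f (v 1) * f (v 2) + f q * f (v 2) ^ 2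
    simp only [map_add, map_mul, map_pow, map_ofNat]
  · show f (2 * v 1 * v 0 + v 0 * v 2 - 4 * q * v 2 ^ 2) =
      2 * f (v 1) * f (v 0) + f (v 0) * f (v 2) - 4 * f q * f (v 2) ^ 2
    simp only [map_add, map_sub, map_mul, map_pow, map_ofNat]
  · show f (v 1 ^ 2 - 4 * v 0 * v 2) = f (v 1) ^ 2 - 4 * f (v 0) * f (v 2)
    simp only [map_sub, map_mul, map_pow, map_ofNat]

private theorem WJ_inj (q : K) : Function.Injective (aeval (xL q) : K[X] →ₐ[K] LL q) :=
  transcendental_iff_injective.1 (xL_tr q)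

open Classical in
theorem Rx_par {q : K} (hq : q ≠ 0) (hq' : 432 * q ≠ 1) (P Q : PL q (LL q)) {a b c d : Fin 2 → K[X]}
    (ha : Rx P a) (hb : Rx Q b) (hc : Rx (P + Q) c) (hd : Rx (P - Q) d) :
    md c + md d = 2 * md a + 2 * md b := by
  obtain ⟨ha0, e₁, he₁, ha1⟩ := ha
  obtain ⟨hb0, e₂, he₂, hb1⟩ := hb
  obtain ⟨hc0, e₃, he₃, hc1⟩ := hc
  obtain ⟨hd0, e₄, he₄, hd1⟩ := hd
  obtain ⟨e, he, hadd⟩ := addsub P Q
  have h1 : ∀ i, aeval (xL q) (GG (C q) (sy a b) i) = (e₁ * e₂) ^ 2 * e * sy (P + Q).xRep (P - Q).xRep i := by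
    intro i
    have h2 := WJ_map_GG ((aeval (xL q) : K[X] →ₐ[K] LL q) : K[X] →+* LL q) (C q) (sy a b) i
    have h3 : (fun i => ((aeval (xL q) : K[X] →ₐ[K] LL q) : K[X] →+* LL q) (sy a b i)) =
        fun i => e₁ * e₂ * sy P.xRep Q.xRep i := by
      funext i
      rw [WJ_map_sy]
      have h4 : (fun i => ((aeval (xL q) : K[X] →ₐ[K] LL q) : K[X] →+* LL q) (a i)) = fun i => e₁ * P.xRep i :=
        funext ha1
      have h5 : (fun i => ((aeval (xL q) : K[X] →ₐ[K] LL q) : K[X] →+* LL q) (b i)) = fun i => e₂ * Q.xRep i :=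
        funext hb1
      rw [h4, h5, WJ_sy]
    have h6 : ((aeval (xL q) : K[X] →ₐ[K] LL q) : K[X] →+* LL q) (C q) = algebraMap K (LL q) q :=
      aeval_C (xL q) q
    rw [h3, WJ_GG, h6, hadd] at h2
    have h7 : aeval (xL q) (GG (C q) (sy a b) i) =
        ((aeval (xL q) : K[X] →ₐ[K] LL q) : K[X] →+* LL q) (GG (C q) (sy a b) i) := rfl
    rw [h7, h2]
    ring
  have h2 : ∀ i, aeval (xL q) (sy c d i) = e₃ * e₄ * sy (P + Q).xRep (P - Q).xRep i := by
    intro i
    have h3 := WJ_map_sy ((aeval (xL q) : K[X] →ₐ[K] LL q) : K[X] →+* LL q) c d i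
    have h4 : (fun i => ((aeval (xL q) : K[X] →ₐ[K] LL q) : K[X] →+* LL q) (c i)) = fun i => e₃ * (P + Q).xRep i :=
      funext hc1
    have h5 : (fun i => ((aeval (xL q) : K[X] →ₐ[K] LL q) : K[X] →+* LL q) (d i)) = fun i => e₄ * (P - Q).xRep i :=
      funext hd1
    rw [h4, h5, WJ_sy] at h3
    exact h3
  refine par_poly hq hq' ha0 hb0 hc0 hd0 fun i j => WJ_inj q ?_
  rw [map_mul, map_mul, h1, h1, h2, h2]
  ring

theorem Rx_uniq {q : K} (P : PL q (LL q)) {a b : Fin 2 → K[X]} (ha : Rx P a) (hb : Rx P b) : md a = md b := by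
  obtain ⟨ha0, e₁, he₁, ha1⟩ := ha
  obtain ⟨hb0, e₂, he₂, hb1⟩ := hb
  have h : a 0 * b 1 = a 1 * b 0 := by
    apply WJ_inj q
    rw [map_mul, map_mul, ha1, ha1, hb1, hb1]
    ring
  have h1 : Associated (a 0) (b 0) := by
    refine associated_of_dvd_dvd ?_ ?_
    · exact ha0.dvd_of_dvd_mul_left (Dvd.intro _ h)
    · refine hb0.dvd_of_dvd_mul_right ?_
      rw [h]
      exact Dvd.intro_left _ rfl
  have h2 : Associated (a 1) (b 1) := by
    refine associated_of_dvd_dvd ?_ ?_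
    · exact ha0.symm.dvd_of_dvd_mul_left (Dvd.intro _ h.symm)
    · refine hb0.symm.dvd_of_dvd_mul_right ?_
      rw [← h]
      exact Dvd.intro_left _ rfl
  rw [md, md, natDegree_eq_natDegree (degree_eq_degree_of_associated h1),
    natDegree_eq_natDegree (degree_eq_degree_of_associated h2)]

theorem Rx_g {q : K} (g : PL q (LL q)) (hg : IsG g) : Rx g ![X, 1] := by
  obtain ⟨h, rfl⟩ := hg
  refine ⟨isCoprime_one_right, 1, one_ne_zero, fun i => ?_⟩
  rw [one_mul, Point.xRep_some]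
  fin_cases i
  · show aeval (xL q) (X : K[X]) = xL q
    rw [aeval_X]
  · show aeval (xL q) (1 : K[X]) = 1
    rw [map_one]

end

section

variable {p : ℕ} [Fact p.Prime] {q : ZMod p}

theorem Rx_frob (g : PL q (LL q)) (hg : IsG g) : Rx (gam g 0) ![X ^ p, 1] := by
  classical
  obtain ⟨h, rfl⟩ := hg
  refine ⟨isCoprime_one_right, 1, one_ne_zero, fun i => ?_⟩
  rw [gam, zero_smul, add_zero, Point.map_some, Point.xRep_some, one_mul]
  fin_cases i
  · show aeval (xL q) ((X : (ZMod p)[X]) ^ p) = frob q (xL q)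
    rw [map_pow, aeval_X, frob_apply]
  · show aeval (xL q) (1 : (ZMod p)[X]) = 1
    rw [map_one]

theorem Rx_gam (hp : 5 ≤ p) (g : PL q (LL q)) (hg : IsG g) (n : ℤ) :
    ∃ a : Fin 2 → (ZMod p)[X], Rx (gam g n) a := by
  classical
  obtain ⟨σ, h1, h2⟩ := sigma q
  have h3 := gam_sigma g hg σ h1 (h2 RatFunc.X) n
  rcases h : gam g n with _ | ⟨z, w, hzw⟩
  · refine ⟨![1, 0], isCoprime_one_left, 1, one_ne_zero, fun i => ?_⟩
    rw [one_mul]
    fin_cases i
    · show aeval (xL q) (1 : (ZMod p)[X]) = 1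
      rw [map_one]
    · show aeval (xL q) (0 : (ZMod p)[X]) = 0
      rw [map_zero]
  · rw [h, Point.map_some, Point.neg_some, Point.some.injEq] at h3
    have h4 : (2 : ZMod p) ≠ 0 := by
      intro h5
      have h6 : ((2 : ℕ) : ZMod p) = 0 := by exact_mod_cast h5
      rw [ZMod.natCast_eq_zero_iff] at h6
      exact absurd (Nat.le_of_dvd (by norm_num) h6) (by omega)
    obtain ⟨r, hr⟩ := fixed_sigma h4 σ h1 h2 z h3.1
    have h5 : algebraMap (ZMod p)[X] (RatFunc (ZMod p)) r.denom ≠ 0 := by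
      rw [Ne, FaithfulSMul.algebraMap_eq_zero_iff]
      exact r.denom_ne_zero
    refine ⟨![r.num, r.denom], r.isCoprime_num_denom,
      algebraMap (RatFunc (ZMod p)) (LL q) (algebraMap (ZMod p)[X] (RatFunc (ZMod p)) r.denom), ?_, fun i => ?_⟩
    · rw [Ne, FaithfulSMul.algebraMap_eq_zero_iff]
      exact h5
    · rw [Point.xRep_some]
      fin_cases i
      · show aeval (xL q) r.num =
          algebraMap (RatFunc (ZMod p)) (LL q) (algebraMap (ZMod p)[X] (RatFunc (ZMod p)) r.denom) * z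
        rw [aeval_xL, hr, ← map_mul]
        congr 1
        have h6 := r.num_div_denom
        rw [div_eq_iff h5] at h6
        rw [h6, mul_comm]
      · show aeval (xL q) r.denom =
          algebraMap (RatFunc (ZMod p)) (LL q) (algebraMap (ZMod p)[X] (RatFunc (ZMod p)) r.denom) * 1
        rw [aeval_xL, mul_one]

theorem gam_par (hp : 5 ≤ p) (hq : q ≠ 0) (hq' : 432 * q ≠ 1) (g : PL q (LL q)) (hg : IsG g) (n : ℤ)
    {a c d : Fin 2 → (ZMod p)[X]} (ha : Rx (gam g n) a) (hc : Rx (gam g (n + 1)) c) (hd : Rx (gam g (n - 1)) d) :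
    md c + md d = 2 * md a + 2 := by
  classical
  have h1 : gam g (n + 1) = gam g n + g := by
    rw [gam, gam, add_smul, one_smul, add_assoc]
  have h2 : gam g (n - 1) = gam g n - g := by
    rw [gam, gam, sub_smul, one_smul, add_sub_assoc]
  rw [h1] at hc
  rw [h2] at hd
  have h3 := Rx_par hq hq' (gam g n) g ha (Rx_g g hg) hc hd
  have h4 : md (![X, 1] : Fin 2 → (ZMod p)[X]) = 1 := by
    show max (X : (ZMod p)[X]).natDegree (1 : (ZMod p)[X]).natDegree = 1
    rw [natDegree_X, natDegree_one]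
    rfl
  rw [h4] at h3
  omega

end

end WPL
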