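import Pool.Agent.Lib.MP_10e784_agWP.WKa

/-!
# LEAF WK: full `l`-torsion over `ZMod p` implies `l ∣ p - 1`

PROOF.  `g` from `exists_g`.  For every integer `n` choose `a n` with `Rx (gam g n) (a n)` (`Rx_gam`), `D n = md (a n)`.  `D 0 = p` (`Rx_frob`, `Rx_uniq`), `D (n + 1) + D (n - 1) = 2 D n + 2` (`gam_par`).  So `D (-1 + k) = D (-1) + k (p - D (-1)) + k (k - 1)` in `ℤ` for all natural `k` (two-step induction from `D (-1)`, `D 0 = p`); `k = l`: `D (l - 1) = D (-1) + l (p - D (-1)) + l (l - 1)`.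
`dvd_gam` for `n = -1` and `n = l - 1`: `l² ∣ Nat.card V ∣ 2 D n`.
`l` odd: `l² ∣ D (-1)` and `l² ∣ D (l - 1)`; subtract: `l² ∣ l (p - D (-1)) + l (l - 1)`, so `l ∣ p - D (-1) - 1 + l`, so `l ∣ p - 1`.
-/

set_option autoImplicit false

namespace WPL

open Polynomial WeierstrassCurve.Affine

/-- a sequence with second difference `2` -/
private theorem WK_rec (D : ℤ → ℤ) (h : ∀ n, D (n + 1) + D (n - 1) = 2 * D n + 2) (k : ℕ) :
    D (-1 + k) = D (-1) + k * (D 0 - D (-1)) + k * (k - 1) := by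
  have key : ∀ k : ℕ, D (-1 + k) = D (-1) + k * (D 0 - D (-1)) + k * (k - 1) ∧
      D (-1 + (k + 1 : ℕ)) = D (-1) + (k + 1 : ℕ) * (D 0 - D (-1)) + (k + 1 : ℕ) * ((k + 1 : ℕ) - 1) := by
    intro k
    induction k with
    | zero => constructor <;> simp
    | succ k ih =>
      refine ⟨ih.2, ?_⟩
      have h1 := h (-1 + (k + 1 : ℕ))
      have e1 : (-1 : ℤ) + (k + 1 : ℕ) + 1 = -1 + (k + 1 + 1 : ℕ) := by push_cast; ring
      have e2 : (-1 : ℤ) + (k + 1 : ℕ) - 1 = -1 + (k : ℕ) := by push_cast; ring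
      rw [e1, e2, ih.1, ih.2] at h1
      have h3 : D (-1 + (k + 1 + 1 : ℕ)) =
          2 * (D (-1) + (k + 1 : ℕ) * (D 0 - D (-1)) + (k + 1 : ℕ) * ((k + 1 : ℕ) - 1)) + 2
            - (D (-1) + k * (D 0 - D (-1)) + k * (k - 1)) := by linarith
      rw [h3]
      push_cast
      ring
  exact (key k).1

/-- the arithmetic at the end -/
private theorem WK_arith (p l : ℕ) (hp : 1 ≤ p) (hl : l.Prime) (h2 : l ≠ 2) (d e c : ℕ) (hc : l ^ 2 ∣ c)
    (hd : c ∣ 2 * d) (he : c ∣ 2 * e) (h : (e : ℤ) = d + l * ((p : ℤ) - d) + l * (l - 1)) : l ∣ p - 1 := by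
  have hco : Nat.Coprime (l ^ 2) 2 := by
    refine Nat.Coprime.pow_left 2 ?_
    exact (Nat.coprime_primes hl Nat.prime_two).2 h2
  have hd' : l ^ 2 ∣ d := hco.dvd_of_dvd_mul_left (hc.trans hd)
  have he' : l ^ 2 ∣ e := hco.dvd_of_dvd_mul_left (hc.trans he)
  obtain ⟨d', rfl⟩ := hd'
  obtain ⟨e', rfl⟩ := he'
  have hl0 : (l : ℤ) ≠ 0 := by exact_mod_cast hl.ne_zero
  have h3 : (l : ℤ) * ((l : ℤ) * e') = l * ((l : ℤ) * d' + ((p : ℤ) - l ^ 2 * d') + (l - 1)) := by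
    push_cast at h
    linear_combination h
  have h4 := mul_left_cancel₀ hl0 h3
  have h5 : (l : ℤ) ∣ ((p - 1 : ℕ) : ℤ) := by
    rw [Nat.cast_sub hp]
    refine ⟨e' - d' + l * d' - 1, ?_⟩
    push_cast
    linear_combination -h4
  exact_mod_cast h5

theorem full_tors (p : ℕ) [Fact p.Prime] (hp : 5 ≤ p) {q : ZMod p} (hq : q ≠ 0) (hq' : 432 * q ≠ 1) (l : ℕ)
    (hl : l.Prime) (h2 : l ≠ 2) (V : AddSubgroup (PL q (ZMod p))) [Finite V] (hV : ∀ T ∈ V, l • T = 0)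
    (hc : l ^ 2 ∣ Nat.card V) : l ∣ p - 1 := by
  have hpp : p.Prime := Fact.out
  have hk : ∀ k : ℕ, 0 < k → k < 5 → ((k : ℕ) : ZMod p) ≠ 0 := fun k h0 h5 h => by
    have := (ZMod.natCast_eq_zero_iff k p).1 h
    exact absurd (Nat.le_of_dvd h0 this) (by omega)
  obtain ⟨g, hg⟩ := exists_g (K := ZMod p) (by exact_mod_cast hk 2 (by norm_num) (by norm_num))
    (by exact_mod_cast hk 3 (by norm_num) (by norm_num)) hq hq'
  choose a ha using fun n : ℤ => Rx_gam hp g hg n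
  have h0 : md (a 0) = p := by
    rw [Rx_uniq (gam g 0) (ha 0) (Rx_frob g hg)]
    simp [md]
  have hpar : ∀ n : ℤ, ((md (a (n + 1)) : ℕ) : ℤ) + ((md (a (n - 1)) : ℕ) : ℤ) = 2 * ((md (a n) : ℕ) : ℤ) + 2 :=
    fun n => by exact_mod_cast gam_par hp hq hq' g hg n (ha n) (ha (n + 1)) (ha (n - 1))
  have hrec : ((md (a (-1 + l)) : ℕ) : ℤ) = ((md (a (-1)) : ℕ) : ℤ) +
      l * (((md (a 0) : ℕ) : ℤ) - ((md (a (-1)) : ℕ) : ℤ)) + l * (l - 1) :=
    WK_rec (fun n => ((md (a n) : ℕ) : ℤ)) hpar l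
  have hd := dvd_gam hp g hg l V hV (-1) (by simp) (ha (-1))
  have he := dvd_gam hp g hg l V hV (-1 + l) (by simp) (ha (-1 + l))
  refine WK_arith p l hpp.one_le hl h2 (md (a (-1))) (md (a (-1 + l))) (Nat.card V) hc hd he ?_
  rw [h0] at hrec
  exact hrec

end WPL
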