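import Pool.Agent.Lib.MP_10e784_agWP.WJ
import Pool.Agent.Lib.MP_10e784_agWP.WD2

/-!
# LEAF WKa: the degree of the `x`-coordinate of `φ + n g`, `n = -1` modulo `l`

PROOF.  If `gam g n = 0` or its `x`-coordinate is the image of a constant, `md a = 0` (`Rx_uniq` with `![1, 0]` or `![C c, 1]`).  Otherwise `gam g n = some z w`, `z` the image of `r` (from `ha`: `z = a₀(x) / a₁(x)`, `r` the quotient in `RatFunc K`), `r` not constant, `md a = max (deg num) (deg denom)` (`Rx_uniq` with `![r.num, r.denom]`), and for `T ∈ V`, `τ` as in `card_dvd`: `gam_trans` and `(1 + n) • T = 0` (from `l • T = 0`) give `Point.map τ (gam g n) = gam g n`, so `τ z = z`; `card_dvd`.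
-/

set_option autoImplicit false

namespace WPL

open Polynomial WeierstrassCurve.Affine

theorem dvd_gam {p : ℕ} [Fact p.Prime] {q : ZMod p} (hp : 5 ≤ p) (g : PL q (LL q)) (hg : IsG g) (l : ℕ)
    (V : AddSubgroup (PL q (ZMod p))) [Finite V] (hV : ∀ T ∈ V, l • T = 0) (n : ℤ) (hn : (l : ℤ) ∣ 1 + n)
    {a : Fin 2 → (ZMod p)[X]} (ha : Rx (gam g n) a) : Nat.card V ∣ 2 * md a := by
  obtain ⟨hcop, e, he, hae⟩ := id ha
  rcases hP : gam g n with _ | ⟨z, w, h⟩
  · -- the point at infinity
    have h1 : aeval (xL q) (a 1) = 0 := by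
      rw [hae 1, hP]
      have h2 : (Point.zero : PL q (LL q)).xRep = ![1, 0] := Point.xRep_zero
      rw [h2]
      simp
    have h3 : a 1 = 0 := by
      by_contra hne
      exact (xL_tr q) ⟨a 1, hne, h1⟩
    have h4 : IsUnit (a 0) := by
      rw [h3] at hcop
      exact isCoprime_zero_right.1 hcop
    have h5 : md a = 0 := by
      unfold md
      rw [h3, natDegree_eq_zero_of_isUnit h4, natDegree_zero, max_self]
    rw [h5, mul_zero]
    exact dvd_zero _
  · have hx : (gam g n).xRep = ![z, 1] := by
      rw [hP]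
      exact Point.xRep_some h
    have h0 : aeval (xL q) (a 0) = e * z := by
      rw [hae 0, hx]
      simp
    have h1 : aeval (xL q) (a 1) = e := by
      rw [hae 1, hx]
      simp
    have ha1 : a 1 ≠ 0 := by
      intro h2
      rw [h2, map_zero] at h1
      exact he h1.symm
    obtain ⟨r, hr⟩ : ∃ r : RatFunc (ZMod p), z = algebraMap (RatFunc (ZMod p)) (LL q) r := by
      refine ⟨algebraMap (ZMod p)[X] (RatFunc (ZMod p)) (a 0) / algebraMap (ZMod p)[X] (RatFunc (ZMod p)) (a 1), ?_⟩
      rw [map_div₀, ← aeval_xL, ← aeval_xL, h0, h1, mul_div_cancel_left₀ _ he]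
    have hb : Rx (gam g n) ![r.num, r.denom] := by
      refine ⟨r.isCoprime_num_denom, aeval (xL q) r.denom, ?_, ?_⟩
      · intro h2
        exact (xL_tr q) ⟨r.denom, r.denom_ne_zero, h2⟩
      · have h2 : aeval (xL q) r.num = aeval (xL q) r.denom * z := by
          rw [aeval_xL, aeval_xL, hr, ← map_mul]
          congr 1
          have h3 : algebraMap (ZMod p)[X] (RatFunc (ZMod p)) r.denom ≠ 0 := by
            simpa using r.denom_ne_zero
          have h4 := RatFunc.num_div_denom r
          rw [div_eq_iff h3] at h4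
          rw [h4, mul_comm]
        intro i
        rw [hx]
        fin_cases i
        · simpa using h2
        · simp
    have hmd : md a = max r.num.natDegree r.denom.natDegree := Rx_uniq _ ha hb
    rw [hmd]
    by_cases hc : ∃ c : ZMod p, r = RatFunc.C c
    · obtain ⟨c, rfl⟩ := hc
      rw [RatFunc.num_C, RatFunc.denom_C, natDegree_C, natDegree_one, max_self, mul_zero]
      exact dvd_zero _
    · refine card_dvd g hg V r hc fun T hT τ hτ => ?_
      have h2 := gam_trans g T τ hτ n
      have h3 : (1 + n) • T = 0 := by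
        obtain ⟨m, hm⟩ := hn
        rw [hm, mul_comm, mul_smul]
        have h4 : ((l : ℤ)) • T = 0 := by
          rw [natCast_zsmul]
          exact hV T hT
        rw [h4, smul_zero]
      rw [h3, map_zero, add_zero, hP] at h2
      have h5 : τ z = z := by
        have h6 := (Point.some.inj h2).1
        exact h6
      rw [← hr]
      exact h5

end WPL
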